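import Pool.Agent.H44.L.TH399_CC_Main

set_option autoImplicit false
set_option linter.unusedSectionVars false

/-!
Circuit covers of even weightings of ratio two.
-/

namespace Pool.Agent.H44.RT

open Finset
open Pool.Agent.Helper879.ECD (F2 IsFlow inc cn f2_add_self f2_cases)
open Pool.Agent.H126R2.CDC (MGraph isFl_iff)
open Pool.Agent.H126R2.NC (InCone InLat InIntCone countP_sum)
open Pool.Agent.TH399.CC (intCone_add intCone_sum isEven_of_isFlow exists_flow_on
  exists_flow8_minus isFlow_add isFlow_smul)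

variable {V E : Type} [Fintype V] [DecidableEq V] [Fintype E] [DecidableEq E]

lemma intCone_of_flows (G : MGraph V E) (v : E × Bool → V)
    (hv : ∀ e, G.ends e = s(v (e, false), v (e, true))) {ι : Type} [Fintype ι] [DecidableEq ι]
    (Y : ι → E → F2) (hY : ∀ i, IsFlow (fun e => v (e, false)) (fun e => v (e, true)) (Y i)) :
    InIntCone G (fun e => (univ.filter (fun i => Y i e = 1)).card) := by
  classical
  choose S hS1 hS2 using fun t => G.decompose _ _ rfl (isEven_of_isFlow G v hv (Y t) (hY t))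
  refine ⟨∑ t, S t, ?_, ?_⟩
  · intro C hC
    rw [Multiset.mem_sum] at hC
    obtain ⟨t, _, ht⟩ := hC
    exact hS1 t C ht
  · intro e
    rw [countP_sum]
    have h1 : ∀ t ∈ (univ : Finset ι), (S t).countP (fun C => e ∈ C) =
        if Y t e = 1 then 1 else 0 := by
      intro t _
      rw [hS2 t e]
      simp
    rw [Finset.sum_congr rfl h1, ← Finset.card_filter]

lemma sum_min (m k d : ℕ) : ∑ j ∈ Finset.range k, min m (d - m * j) = min d (m * k) := by
  induction k with
  | zero => simp
  | succ k ih =>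
    rw [Finset.sum_range_succ, ih, Nat.mul_succ]
    omega

lemma cross_iff (G : MGraph V E) (v : E × Bool → V)
    (hv : ∀ e, G.ends e = s(v (e, false), v (e, true))) (B : Finset V) (e : E) :
    ((∃ x ∈ G.ends e, x ∈ B) ∧ ∃ x ∈ G.ends e, x ∉ B) ↔
      ¬ (v (e, false) ∈ B ↔ v (e, true) ∈ B) := by
  rw [hv e]
  simp only [Sym2.mem_iff]
  constructor
  · rintro ⟨⟨x, hx, hxB⟩, y, hy, hyB⟩ h
    rcases hx with rfl | rfl <;> rcases hy with rfl | rfl
    · exact hyB hxB
    · exact hyB (h.1 hxB)
    · exact hyB (h.2 hxB)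
    · exact hyB hxB
  · intro h
    by_cases h1 : v (e, false) ∈ B
    · by_cases h2 : v (e, true) ∈ B
      · exact absurd ⟨fun _ => h2, fun _ => h1⟩ h
      · exact ⟨⟨_, Or.inl rfl, h1⟩, _, Or.inr rfl, h2⟩
    · by_cases h2 : v (e, true) ∈ B
      · exact ⟨⟨_, Or.inr rfl, h2⟩, _, Or.inl rfl, h1⟩
      · exact absurd ⟨fun h => absurd h h1, fun h => absurd h h2⟩ h

/-- the edges of `H` with exactly one end-vertex in `B` -/
def bdry (G : MGraph V E) (H : Finset E) (B : Finset V) : Finset E :=
  H.filter (fun e => (∃ x ∈ G.ends e, x ∈ B) ∧ ∃ x ∈ G.ends e, x ∉ B)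

lemma bdry_card (G : MGraph V E) (v : E × Bool → V)
    (hv : ∀ e, G.ends e = s(v (e, false), v (e, true))) (H : Finset E) (B : Finset V) :
    (bdry G H B).card = cn (fun e => v (e, false)) (fun e => v (e, true)) H B := by
  unfold bdry cn
  congr 1
  apply Finset.filter_congr
  intro e _
  rw [hv e]
  simp only [Sym2.mem_iff]
  constructor
  · rintro ⟨⟨x, hx, hxB⟩, y, hy, hyB⟩ h
    rcases hx with rfl | rfl <;> rcases hy with rfl | rfl
    · exact hyB hxB
    · exact hyB (h.1 hxB)
    · exact hyB (h.2 hxB)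
    · exact hyB hxB
  · intro h
    by_cases h1 : v (e, false) ∈ B
    · by_cases h2 : v (e, true) ∈ B
      · exact absurd ⟨fun _ => h2, fun _ => h1⟩ h
      · exact ⟨⟨_, Or.inl rfl, h1⟩, _, Or.inr rfl, h2⟩
    · by_cases h2 : v (e, true) ∈ B
      · exact ⟨⟨_, Or.inr rfl, h2⟩, _, Or.inl rfl, h1⟩
      · exact absurd ⟨fun h => absurd h h1, fun h => absurd h h2⟩ h

section flows

variable {W : Type} [Fintype W] [DecidableEq W]

/-- the linear map which sends a potential to its differences -/
noncomputable def dlt (a b : E → W) : (W → F2) →ₗ[F2] (E → F2) where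
  toFun φ e := φ (a e) + φ (b e)
  map_add' x y := by ext e; simp only [Pi.add_apply]; ring
  map_smul' r x := by ext e; simp only [Pi.smul_apply, smul_eq_mul, RingHom.id_apply]; ring

/-- a linear functional on `E → F2` is a scalar product -/
lemma dual_eq (f : (E → F2) →ₗ[F2] F2) (z : E → F2) :
    f z = ∑ e, z e * f (Pi.single e 1) := by
  have h1 : z = ∑ e, z e • (Pi.single e (1 : F2) : E → F2) := by
    ext g
    rw [Finset.sum_apply]
    simp [Pi.single_apply]
  conv_lhs => rw [h1]
  rw [map_sum]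
  simp only [map_smul, smul_eq_mul]

/-- a vector which is orthogonal to all flows is a cut -/
lemma cut_of_orth (a b : E → W) (z : E → F2)
    (h : ∀ t : E → F2, IsFlow a b t → ∑ e, z e * t e = 0) :
    ∃ φ : W → F2, ∀ e, z e = φ (a e) + φ (b e) := by
  by_contra hcon
  have hz : z ∉ LinearMap.range (dlt a b) := by
    rintro ⟨φ, hφ⟩
    exact hcon ⟨φ, fun e => by rw [← hφ]; rfl⟩
  obtain ⟨f, hf1, hf2⟩ := Submodule.exists_le_ker_of_notMem hz
  apply hf1
  rw [dual_eq]
  apply h
  intro φ
  have h3 : f (dlt a b φ) = 0 := hf2 ⟨φ, rfl⟩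
  rw [dual_eq] at h3
  rw [← h3]
  apply Finset.sum_congr rfl
  intro e _
  rw [mul_comm]
  rfl

/-- if only the zero vector is annihilated, then all vectors are attained -/
lemma surj_of_rigid (a b : E → W) (x y : E → F2)
    (hr : ∀ z : E → F2, (∃ φ : W → F2, ∀ e, z e * x e = φ (a e) + φ (b e)) →
      (∃ φ : W → F2, ∀ e, z e * y e = φ (a e) + φ (b e)) → ∀ e, z e = 0)
    (c : E → F2) :
    ∃ t s : E → F2, IsFlow a b t ∧ IsFlow a b s ∧ ∀ e, x e * t e + y e * s e = c e := by
  let R : Submodule F2 (E → F2) :=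
    { carrier := {c | ∃ t s : E → F2, IsFlow a b t ∧ IsFlow a b s ∧
        ∀ e, x e * t e + y e * s e = c e}
      zero_mem' := ⟨fun _ => 0, fun _ => 0, fun c => by simp, fun c => by simp, fun e => by simp⟩
      add_mem' := by
        rintro c d ⟨t, s, ht, hs, h⟩ ⟨t', s', ht', hs', h'⟩
        refine ⟨fun e => t e + t' e, fun e => s e + s' e, isFlow_add ht ht', isFlow_add hs hs', ?_⟩
        intro e
        show _ = c e + d e
        rw [← h e, ← h' e]; ring
      smul_mem' := by
        rintro r c ⟨t, s, ht, hs, h⟩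
        refine ⟨fun e => r * t e, fun e => r * s e, isFlow_smul r ht, isFlow_smul r hs, ?_⟩
        intro e
        show _ = r * c e
        rw [← h e]; ring }
  by_contra hcon
  have hc : c ∉ R := hcon
  obtain ⟨f, hf1, hf2⟩ := Submodule.exists_le_ker_of_notMem hc
  have hz : IsFlow a b (fun _ => (0 : F2)) := fun c => by simp
  have h1 := hr (fun e => f (Pi.single e 1)) (cut_of_orth a b _ (by
    intro t ht
    have h2 : (fun e => x e * t e) ∈ R := ⟨t, fun _ => 0, ht, hz, fun e => by simp⟩
    have h3 : f (fun e => x e * t e) = 0 := hf2 h2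
    rw [dual_eq] at h3
    rw [← h3]
    apply Finset.sum_congr rfl
    intro e _
    ring)) (cut_of_orth a b _ (by
    intro t ht
    have h2 : (fun e => y e * t e) ∈ R := ⟨fun _ => 0, t, hz, ht, fun e => by simp⟩
    have h3 : f (fun e => y e * t e) = 0 := hf2 h2
    rw [dual_eq] at h3
    rw [← h3]
    apply Finset.sum_congr rfl
    intro e _
    ring))
  apply hf1
  rw [dual_eq]
  apply Finset.sum_eq_zero
  intro e _
  rw [h1 e, mul_zero]

/-- the table -/
lemma tab6 : ∀ x y t s c : F2, (x ≠ 0 ∨ y ≠ 0) → x * t + y * s = c →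
    ((univ : Finset (Fin 6)).filter (fun i =>
      (![x + t, x + t + y, x + t + s, y + s, x + y + s, t + y + s] : Fin 6 → F2) i = 1)).card =
      if c = 1 then 2 else 4 := by
  decide +kernel

lemma family (a b : E → W) (x y t s c : E → F2) (hx : IsFlow a b x) (hy : IsFlow a b y)
    (ht : IsFlow a b t) (hs : IsFlow a b s) (hxy : ∀ e, x e ≠ 0 ∨ y e ≠ 0)
    (h : ∀ e, x e * t e + y e * s e = c e) :
    ∃ Y : Fin 6 → E → F2, (∀ i, IsFlow a b (Y i)) ∧
      ∀ e, (univ.filter (fun i => Y i e = 1)).card = if c e = 1 then 2 else 4 := by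
  refine ⟨fun i e => (![x e + t e, x e + t e + y e, x e + t e + s e, y e + s e,
    x e + y e + s e, t e + y e + s e] : Fin 6 → F2) i, ?_, ?_⟩
  · intro i
    fin_cases i
    · exact isFlow_add hx ht
    · exact isFlow_add (isFlow_add hx ht) hy
    · exact isFlow_add (isFlow_add hx ht) hs
    · exact isFlow_add hy hs
    · exact isFlow_add (isFlow_add hx hy) hs
    · exact isFlow_add (isFlow_add ht hy) hs
  · intro e
    exact tab6 (x e) (y e) (t e) (s e) (c e) (hxy e) (h e)

end flows

section graph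

/-- sums of blocks with the values two and four -/
lemma of_blocks (G : MGraph V E)
    (hb : ∀ J : Finset E, InIntCone G (fun e => if e ∈ J then 4 else 2))
    (p : E → ℕ) (hp : ∀ e, Even (p e)) (h2 : ∀ e f, p e ≤ 2 * p f) : InIntCone G p := by
  classical
  by_cases hE : Nonempty E
  · obtain ⟨e0, -, hmin⟩ := Finset.exists_min_image (univ : Finset E) p
      ⟨hE.some, Finset.mem_univ _⟩
    obtain ⟨k, hk⟩ := hp e0
    have hB : ∀ j ∈ Finset.range k, InIntCone G (fun e => if e ∈ univ.filter
        (fun e => 2 * k + 2 * j < p e) then 4 else 2) := fun j _ => hb _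
    have h5 := intCone_sum G (Finset.range k) _ hB
    have h6 : (fun e => ∑ j ∈ Finset.range k, (if e ∈ univ.filter
        (fun e => 2 * k + 2 * j < p e) then 4 else 2)) = p := by
      ext e
      have h7 := hmin e (Finset.mem_univ _)
      have h8 := h2 e e0
      obtain ⟨d, hd⟩ : ∃ d, p e = 2 * k + 2 * d := by
        obtain ⟨c, hc⟩ := hp e
        exact ⟨c - k, by omega⟩
      have h9 : d ≤ k := by omega
      have h10 : ∀ n, n ≤ k → ∑ j ∈ Finset.range n, (if e ∈ univ.filter
        (fun e => 2 * k + 2 * j < p e) then 4 else 2) = 2 * n + 2 * min n d := by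
        intro n
        induction n with
        | zero => intro _; simp
        | succ n ih =>
          intro hn
          rw [Finset.sum_range_succ, ih (by omega)]
          simp only [Finset.mem_filter, Finset.mem_univ, true_and]
          rw [hd]
          split_ifs <;> omega
      rw [h10 k le_rfl]
      omega
    rw [h6] at h5
    exact h5
  · exact ⟨0, by simp, fun e => absurd ⟨e⟩ hE⟩

/-- the edge `e` joins a vertex of `B` to a vertex outside `B` -/
def Leaves (G : MGraph V E) (e : E) (B : Finset V) : Prop :=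
  (∃ x ∈ G.ends e, x ∈ B) ∧ ∃ x ∈ G.ends e, x ∉ B

/-- the blocks of a rigid pair of even sets -/
theorem block_rigid (G : MGraph V E) (X Y : Finset E) (hX : G.IsEven X) (hY : G.IsEven Y)
    (hXY : ∀ e, e ∈ X ∨ e ∈ Y)
    (hr : ∀ M : Finset E, (∃ B : Finset V, ∀ e, e ∈ M ∧ e ∈ X ↔ Leaves G e B) →
      (∃ B : Finset V, ∀ e, e ∈ M ∧ e ∈ Y ↔ Leaves G e B) → M = ∅) (J : Finset E) :
    InIntCone G (fun e => if e ∈ J then 4 else 2) := by
  classical
  obtain ⟨v, hv⟩ := G.exists_halves
  have hx := (isFl_iff v _).1 ((G.isEven_iff v hv X).1 hX)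
  have hy := (isFl_iff v _).1 ((G.isEven_iff v hv Y).1 hY)
  have hkey : ∀ (z : E → F2) (X : Finset E) (φ : V → F2),
      (∀ e, z e * (if e ∈ X then (1 : F2) else 0) = φ (v (e, false)) + φ (v (e, true))) →
      ∃ B : Finset V, ∀ e, e ∈ univ.filter (fun e => z e = 1) ∧ e ∈ X ↔ Leaves G e B := by
    intro z X φ h
    refine ⟨univ.filter (fun w => φ w = 1), fun e => ?_⟩
    unfold Leaves
    rw [cross_iff G v hv]
    have h1 := h e
    simp only [Finset.mem_filter, Finset.mem_univ, true_and]
    rcases f2_cases (z e) with hz | hz <;> by_cases he : e ∈ X <;>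
      rcases f2_cases (φ (v (e, false))) with h2 | h2 <;>
      rcases f2_cases (φ (v (e, true))) with h3 | h3 <;>
      simp [hz, he, h2, h3] at h1 ⊢
  obtain ⟨t, s, ht, hs, hts⟩ := surj_of_rigid (fun e => v (e, false)) (fun e => v (e, true))
    (fun e => if e ∈ X then (1 : F2) else 0) (fun e => if e ∈ Y then (1 : F2) else 0) (by
      rintro z ⟨φ, hφ⟩ ⟨ψ, hψ⟩ e
      have h1 := hr _ (hkey z X φ hφ) (hkey z Y ψ hψ)
      rcases f2_cases (z e) with h | h
      · exact h
      · exfalso
        have h2 : e ∈ univ.filter (fun e => z e = 1) := by simp [h]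
        rw [h1] at h2
        exact Finset.notMem_empty _ h2)
    (fun e => if e ∈ J then (0 : F2) else 1)
  obtain ⟨Z, hZ1, hZ2⟩ := family _ _ _ _ t s _ hx hy ht hs (by
    intro e
    rcases hXY e with h | h <;> simp [h]) hts
  have h9 := intCone_of_flows G v hv Z hZ1
  have h10 : (fun e => (univ.filter (fun i => Z i e = 1)).card) =
      (fun e => if e ∈ J then 4 else 2) := by
    ext e
    rw [hZ2 e]
    by_cases he : e ∈ J <;> simp [he]
  rw [h10] at h9
  exact h9

end graph

end Pool.Agent.H44.RT
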