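import Pool.Agent.H44.RT.Small

set_option autoImplicit false
set_option linter.unusedSectionVars false

/-!
Edge-connected graphs contain disjoint connected spanning edge sets; packed closed trails.
-/

namespace Pool.Agent.H44.RT

open Finset
open Pool.Agent.Helper879.ECD (F2 IsFlow inc cn f2_add_self f2_cases sp mem_sp fnl fnl_inc)
open Pool.Agent.H126R2.CDC (MGraph isFl_iff packK)
open Pool.Agent.H126R2.NC (InCone InLat InIntCone)
open Pool.Agent.TH399.CC (intCone_add intCone_sum isEven_of_isFlow exists_flow_on
  exists_flow8_minus isFlow_add isFlow_smul)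

section rank

variable {W E : Type} [Fintype W] [DecidableEq W] [Fintype E] [DecidableEq E]

open Classical in
/-- rank condition for graphs whose nonzero cuts have at least `2 k` edges -/
lemma rank_condK (k : ℕ) (a b : E → W)
    (h4 : ∀ X : Finset W, cn a b univ X = 0 ∨ 2 * k ≤ cn a b univ X)
    (R : Finset E) :
    k * Module.finrank F2 (sp F2 (inc a b) univ) ≤
      k * Module.finrank F2 (sp F2 (inc a b) R) +
        (univ.filter (fun e => ¬ inc a b e ∈ sp F2 (inc a b) R)).card := by
  generalize hS : sp F2 (inc a b) R = S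
  let r : W → W → Prop := fun w v => (Pi.single w 1 + Pi.single v 1 : W → F2) ∈ S
  have hself : ∀ u : W → F2, u + u = 0 := by
    intro u; ext w; exact f2_add_self _
  have hr_refl : ∀ w, r w w := by
    intro w
    show (Pi.single w 1 + Pi.single w 1 : W → F2) ∈ S
    rw [hself]; exact S.zero_mem
  have hr_symm : ∀ w v, r w v → r v w := by
    intro w v h
    show (Pi.single v 1 + Pi.single w 1 : W → F2) ∈ S
    rw [add_comm]; exact h
  have hr_trans : ∀ u v w, r u v → r v w → r u w := by
    intro u v w h1 h2
    have h3 := S.add_mem h1 h2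
    have h4 : (Pi.single u 1 + Pi.single v 1 : W → F2) + (Pi.single v 1 + Pi.single w 1) =
        Pi.single u 1 + Pi.single w 1 := by
      rw [show (Pi.single u 1 + Pi.single v 1 : W → F2) + (Pi.single v 1 + Pi.single w 1) =
        Pi.single u 1 + (Pi.single v 1 + Pi.single v 1) + Pi.single w 1 by abel, hself, add_zero]
    rw [h4] at h3
    exact h3
  let cls : W → Finset W := fun w => univ.filter (fun v => r w v)
  have hcls : ∀ w v, v ∈ cls w ↔ r w v := by intro w v; simp [cls]
  have hcls_eq : ∀ w v, r w v → cls w = cls v := by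
    intro w v h
    ext u
    rw [hcls, hcls]
    exact ⟨fun h' => hr_trans _ _ _ (hr_symm _ _ h) h', fun h' => hr_trans _ _ _ h h'⟩
  let P : Finset (Finset W) := univ.image cls
  have hPmem : ∀ w, cls w ∈ P := fun w => Finset.mem_image_of_mem _ (Finset.mem_univ _)
  have hPuniq : ∀ X ∈ P, ∀ w ∈ X, X = cls w := by
    intro X hX w hw
    obtain ⟨v, _, rfl⟩ := Finset.mem_image.1 hX
    exact hcls_eq _ _ ((hcls _ _).1 hw)
  let P' : Finset (Finset W) := P.filter (fun X => cn a b univ X ≠ 0)
  have hE : ∀ e, inc a b e ∈ S ↔ r (a e) (b e) := fun e => Iff.rfl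
  -- counting
  have hcount : ∑ X ∈ P, cn a b univ X =
      2 * (univ.filter (fun e => ¬ inc a b e ∈ S)).card := by
    simp only [cn, Finset.card_filter, Finset.mul_sum]
    rw [Finset.sum_comm]
    apply Finset.sum_congr rfl
    intro e _
    by_cases h : inc a b e ∈ S
    · have h1 : ∀ X ∈ P, (if ¬ (a e ∈ X ↔ b e ∈ X) then 1 else 0) = 0 := by
        intro X hX
        rw [if_neg]
        rw [not_not]
        constructor
        · intro h2
          rw [hPuniq X hX _ h2, hcls]
          exact (hE e).1 h
        · intro h2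
          rw [hPuniq X hX _ h2, hcls]
          exact hr_symm _ _ ((hE e).1 h)
      rw [Finset.sum_congr rfl h1]
      simp [h]
    · have hne : cls (a e) ≠ cls (b e) := by
        intro h2
        apply h
        rw [hE]
        have : b e ∈ cls (b e) := (hcls _ _).2 (hr_refl _)
        rw [← h2, hcls] at this
        exact this
      have h1 : ∀ X ∈ P, (if ¬ (a e ∈ X ↔ b e ∈ X) then 1 else 0) =
          (if X = cls (a e) then 1 else 0) + (if X = cls (b e) then 1 else 0) := by
        intro X hX
        have ha : a e ∈ X ↔ X = cls (a e) :=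
          ⟨fun h2 => hPuniq X hX _ h2, fun h2 => by rw [h2, hcls]; exact hr_refl _⟩
        have hb : b e ∈ X ↔ X = cls (b e) :=
          ⟨fun h2 => hPuniq X hX _ h2, fun h2 => by rw [h2, hcls]; exact hr_refl _⟩
        by_cases h2 : X = cls (a e)
        · have h3 : ¬ X = cls (b e) := fun h3 => hne (h2.symm.trans h3)
          rw [if_pos, if_pos h2, if_neg h3]
          intro h4
          exact h3 (hb.1 (h4.1 (ha.2 h2)))
        · by_cases h3 : X = cls (b e)
          · rw [if_pos, if_neg h2, if_pos h3]
            intro h4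
            exact h2 (ha.1 (h4.2 (hb.2 h3)))
          · rw [if_neg, if_neg h2, if_neg h3]
            rw [not_not]
            exact ⟨fun h4 => absurd (ha.1 h4) h2, fun h4 => absurd (hb.1 h4) h3⟩
      rw [Finset.sum_congr rfl h1, Finset.sum_add_distrib]
      simp [h, hPmem]
  have hP' : k * P'.card ≤ (univ.filter (fun e => ¬ inc a b e ∈ S)).card := by
    have h1 : 2 * (k * P'.card) ≤ ∑ X ∈ P', cn a b univ X := by
      have := Finset.card_nsmul_le_sum P' (fun X => cn a b univ X) (2 * k) (by
        intro X hX
        have h2 := (Finset.mem_filter.1 hX).2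
        rcases h4 X with h3 | h3
        · exact absurd h3 h2
        · exact h3)
      rw [smul_eq_mul] at this
      nlinarith
    have h2 : ∑ X ∈ P', cn a b univ X ≤ ∑ X ∈ P, cn a b univ X :=
      Finset.sum_le_sum_of_subset (Finset.filter_subset _ _)
    omega
  -- representatives
  have hrep : ∀ X ∈ P, ∃ w, w ∈ X := by
    intro X hX
    obtain ⟨v, _, rfl⟩ := Finset.mem_image.1 hX
    exact ⟨v, (hcls _ _).2 (hr_refl _)⟩
  by_cases hWe : IsEmpty W
  · have : (sp F2 (inc a b) univ) ≤ S := by
      unfold sp
      rw [Submodule.span_le]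
      rintro _ ⟨e, _, rfl⟩
      exact (hWe.false (a e)).elim
    have := Nat.mul_le_mul_left k (Submodule.finrank_mono this)
    omega
  rw [not_isEmpty_iff] at hWe
  choose! rep hrep using hrep
  let T : Finset (W → F2) := P'.image (fun X => Pi.single (rep X) 1)
  have hle : sp F2 (inc a b) univ ≤ S ⊔ Submodule.span F2 (T : Set (W → F2)) := by
    unfold sp
    rw [Submodule.span_le]
    rintro _ ⟨e, _, rfl⟩
    by_cases h : inc a b e ∈ S
    · exact Submodule.mem_sup_left h
    · have hne : cls (a e) ≠ cls (b e) := by
        intro h2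
        apply h
        rw [hE]
        have : b e ∈ cls (b e) := (hcls _ _).2 (hr_refl _)
        rw [← h2, hcls] at this
        exact this
      have key : ∀ w, (w = a e ∨ w = b e) → cls w ∈ P' := by
        intro w hw
        rw [Finset.mem_filter]
        refine ⟨hPmem _, ?_⟩
        unfold cn
        rw [Finset.card_ne_zero]
        refine ⟨e, ?_⟩
        rw [Finset.mem_filter]
        refine ⟨Finset.mem_univ _, ?_⟩
        intro h2
        apply h
        rw [hE]
        rcases hw with rfl | rfl
        · exact (hcls _ _).1 (h2.1 ((hcls _ _).2 (hr_refl _)))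
        · exact hr_symm _ _ ((hcls _ _).1 (h2.2 ((hcls _ _).2 (hr_refl _))))
      have hmem : ∀ w, (w = a e ∨ w = b e) →
          (Pi.single w 1 : W → F2) ∈ S ⊔ Submodule.span F2 (T : Set (W → F2)) := by
        intro w hw
        have h1 : (Pi.single w 1 + Pi.single (rep (cls w)) 1 : W → F2) ∈ S :=
          (hcls _ _).1 (hrep _ (hPmem w))
        have h2 : (Pi.single (rep (cls w)) 1 : W → F2) ∈ Submodule.span F2 (T : Set (W → F2)) := by
          apply Submodule.subset_span
          rw [Finset.mem_coe]
          exact Finset.mem_image.2 ⟨cls w, key w hw, rfl⟩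
        have h3 : (Pi.single w 1 : W → F2) =
            (Pi.single w 1 + Pi.single (rep (cls w)) 1) + Pi.single (rep (cls w)) 1 := by
          rw [add_assoc, hself, add_zero]
        rw [h3]
        exact Submodule.add_mem _ (Submodule.mem_sup_left h1) (Submodule.mem_sup_right h2)
      exact Submodule.add_mem _ (hmem _ (Or.inl rfl)) (hmem _ (Or.inr rfl))
  have h1 := Submodule.finrank_mono hle
  have h2 := Submodule.finrank_add_le_finrank_add_finrank S (Submodule.span F2 (T : Set (W → F2)))
  have h3 : Module.finrank F2 (Submodule.span F2 (T : Set (W → F2))) ≤ T.card :=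
    finrank_span_finset_le_card T
  have h5 : T.card ≤ P'.card := Finset.card_image_le
  have h6 : Module.finrank F2 (sp F2 (inc a b) univ) ≤ Module.finrank F2 S + P'.card := by omega
  have h7 := Nat.mul_le_mul_left k h6
  rw [Nat.mul_add] at h7
  omega


end rank

variable {V E : Type} [Fintype V] [DecidableEq V] [Fintype E] [DecidableEq E]

/-- `2 k`-edge-connected graphs have `k` pairwise disjoint connected spanning edge sets -/
theorem trees (G : MGraph V E) (k : ℕ)
    (hG : ∀ B : Finset V, B.Nonempty → B ≠ univ → 2 * k ≤ (bdry G univ B).card) :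
    ∃ I : Fin k → Finset E, (∀ i j, i ≠ j → Disjoint (I i) (I j)) ∧
      ∀ i, ∀ B : Finset V, B.Nonempty → B ≠ univ → ∃ e ∈ I i, Leaves G e B := by
  classical
  rcases Nat.eq_zero_or_pos k with rfl | hk
  · exact ⟨fun i => i.elim0, fun i => i.elim0, fun i => i.elim0⟩
  obtain ⟨v, hv⟩ := G.exists_halves
  have h4 : ∀ X : Finset V, cn (fun e => v (e, false)) (fun e => v (e, true)) univ X = 0 ∨
      2 * k ≤ cn (fun e => v (e, false)) (fun e => v (e, true)) univ X := by
    intro X
    by_cases h1 : X.Nonempty
    · by_cases h2 : X = univ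
      · left
        subst h2
        unfold cn
        simp
      · right
        rw [← bdry_card G v hv]
        exact hG X h1 h2
    · left
      rw [Finset.not_nonempty_iff_eq_empty] at h1
      subst h1
      unfold cn
      simp
  obtain ⟨I, hI1, hI2⟩ := packK (F := F2) (K := Fin k)
    (x := inc (fun e => v (e, false)) (fun e => v (e, true))) (fun R => by
      rw [Fintype.card_fin]
      exact rank_condK k _ _ h4 R)
  refine ⟨I, hI1, fun i B h1 h2 => ?_⟩
  by_contra hcon
  push Not at hcon
  have h3 := hG B h1 h2
  obtain ⟨e, he⟩ := Finset.card_pos.1 (show 0 < (bdry G univ B).card by omega)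
  have he2 : Leaves G e B := (Finset.mem_filter.1 he).2
  have hle : sp F2 (inc (fun e => v (e, false)) (fun e => v (e, true))) (I i) ≤
      LinearMap.ker (fnl (fun w => if w ∈ B then (1 : F2) else 0)) := by
    unfold sp
    rw [Submodule.span_le]
    rintro _ ⟨f, hf, rfl⟩
    have h5 := hcon f hf
    unfold Leaves at h5
    rw [cross_iff G v hv, not_not] at h5
    show fnl _ (inc _ _ f) = 0
    rw [fnl_inc]
    by_cases h6 : v (f, false) ∈ B
    · simp only [h6, h5.1 h6, if_true]
      exact f2_add_self _
    · have h7 : v (f, true) ∉ B := fun h => h6 (h5.2 h)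
      simp [h6, h7]
  rw [hI2 i] at hle
  have h8 := hle (mem_sp (F := F2) (x := inc (fun e => v (e, false)) (fun e => v (e, true)))
    (Finset.mem_univ e))
  have h9 : fnl (fun w => if w ∈ B then (1 : F2) else 0)
      (inc (fun e => v (e, false)) (fun e => v (e, true)) e) = 0 := h8
  rw [fnl_inc] at h9
  unfold Leaves at he2
  rw [cross_iff G v hv] at he2
  by_cases h6 : v (e, false) ∈ B <;> by_cases h7 : v (e, true) ∈ B <;> simp [h6, h7] at h9 he2

end Pool.Agent.H44.RT
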