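import Pool.Agent.H44.RT.Core

set_option autoImplicit false
set_option linter.unusedSectionVars false

/-!
Closed trails with a connected complement.
-/

namespace Pool.Agent.H44.RT

open Finset
open Pool.Agent.Helper879.ECD (F2 IsFlow inc cn f2_add_self f2_cases)
open Pool.Agent.H126R2.CDC (MGraph isFl_iff)
open Pool.Agent.H126R2.NC (InCone InLat InIntCone)
open Pool.Agent.TH399.CC (intCone_add intCone_sum isEven_of_isFlow exists_flow_on
  exists_flow8_minus isFlow_add isFlow_smul)

variable {V E : Type} [Fintype V] [DecidableEq V] [Fintype E] [DecidableEq E]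

/-- a potential without differences on a connected set is constant -/
lemma const_of_conn (G : MGraph V E) (v : E × Bool → V)
    (hv : ∀ e, G.ends e = s(v (e, false), v (e, true))) (A : Finset E)
    (hA : ∀ B : Finset V, B.Nonempty → B ≠ univ → ∃ e ∈ A, Leaves G e B)
    (c : V → F2) (hc : ∀ e ∈ A, c (v (e, false)) + c (v (e, true)) = 0) (e : E) :
    c (v (e, false)) + c (v (e, true)) = 0 := by
  classical
  by_contra hcon
  set B : Finset V := univ.filter (fun w => c w = 1) with hB
  have h1 : B.Nonempty := by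
    by_contra h
    rw [Finset.not_nonempty_iff_eq_empty] at h
    apply hcon
    have h2 : ∀ w, c w = 0 := by
      intro w
      rcases f2_cases (c w) with h3 | h3
      · exact h3
      · exfalso
        have h4 : w ∈ B := by simp [hB, h3]
        rw [h] at h4
        exact Finset.notMem_empty _ h4
    rw [h2, h2, add_zero]
  have h2 : B ≠ univ := by
    intro h
    apply hcon
    have h2 : ∀ w, c w = 1 := by
      intro w
      have h3 : w ∈ B := by rw [h]; exact Finset.mem_univ _
      simpa [hB] using h3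
    rw [h2, h2]
    exact f2_add_self _
  obtain ⟨f, hf, hl⟩ := hA B h1 h2
  unfold Leaves at hl
  rw [cross_iff G v hv] at hl
  have h3 := hc f hf
  apply hl
  simp only [hB, Finset.mem_filter, Finset.mem_univ, true_and]
  rcases f2_cases (c (v (f, false))) with h4 | h4 <;>
    rcases f2_cases (c (v (f, true))) with h5 | h5 <;> simp [h4, h5] at h3 ⊢

/-- a flow with prescribed values off a connected set -/
lemma flow_off (G : MGraph V E) (v : E × Bool → V)
    (hv : ∀ e, G.ends e = s(v (e, false), v (e, true))) (A : Finset E)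
    (hA : ∀ B : Finset V, B.Nonempty → B ≠ univ → ∃ e ∈ A, Leaves G e B) (F : Finset E) :
    ∃ Z : E → F2, IsFlow (fun e => v (e, false)) (fun e => v (e, true)) Z ∧
      ∀ e, e ∉ A → Z e = if e ∈ F then 1 else 0 := by
  obtain ⟨Z, h1, h2⟩ := exists_flow_on (fun e => v (e, false)) (fun e => v (e, true)) Aᶜ F (by
    intro c hc
    apply Finset.sum_eq_zero
    intro e _
    exact const_of_conn G v hv A hA c (fun f hf => hc f (by simp [hf])) e)
  exact ⟨Z, h1, fun e he => h2 e (by simp [he])⟩

/-- the blocks of a spanning closed trail with a connected complement -/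
theorem block_trail (G : MGraph V E) (X : Finset E) (hX : G.IsEven X)
    (hin : ∀ B : Finset V, B.Nonempty → B ≠ univ → ∃ e ∈ X, Leaves G e B)
    (hout : ∀ B : Finset V, B.Nonempty → B ≠ univ → ∃ e, e ∉ X ∧ Leaves G e B) (J : Finset E) :
    InIntCone G (fun e => if e ∈ J then 4 else 2) := by
  classical
  obtain ⟨v, hv⟩ := G.exists_halves
  obtain ⟨Z, hZ1, hZ2⟩ := flow_off G v hv X hin univ
  have hY := isEven_of_isFlow G v hv Z hZ1
  have hcov : ∀ e, e ∉ X → e ∈ univ.filter (fun e => Z e = 1) := by
    intro e he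
    have := hZ2 e he
    simp only [Finset.mem_univ, if_true] at this
    simp [this]
  have hno : ∀ B : Finset V, ∀ e, Leaves G e B → B.Nonempty ∧ B ≠ univ := by
    rintro B e ⟨⟨x, -, hx⟩, y, -, hy⟩
    exact ⟨⟨x, hx⟩, fun h => hy (by rw [h]; exact Finset.mem_univ _)⟩
  refine block_rigid G X _ hX hY (fun e => by
    by_cases he : e ∈ X
    · exact Or.inl he
    · exact Or.inr (hcov e he)) ?_ J
  rintro M ⟨B, hB⟩ ⟨B', hB'⟩
  have h1 : ∀ e ∈ M, e ∉ X := by
    intro e he heX
    obtain ⟨h3, h4⟩ := hno B e ((hB e).1 ⟨he, heX⟩)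
    obtain ⟨f, hf, hl⟩ := hout B h3 h4
    exact hf ((hB f).2 hl).2
  rw [Finset.eq_empty_iff_forall_notMem]
  intro e he
  obtain ⟨h3, h4⟩ := hno B' e ((hB' e).1 ⟨he, hcov e (h1 e he)⟩)
  obtain ⟨f, hf, hl⟩ := hin B' h3 h4
  exact h1 f ((hB' f).2 hl).1 hf

/-- the number of the leaving edges in the support of a flow is even -/
lemma flow_parity (G : MGraph V E) (v : E × Bool → V)
    (hv : ∀ e, G.ends e = s(v (e, false), v (e, true))) (Z : E → F2)
    (hZ : IsFlow (fun e => v (e, false)) (fun e => v (e, true)) Z) (B : Finset V) :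
    Even (bdry G (univ.filter (fun e => Z e = 1)) B).card := by
  classical
  have h1 := hZ (fun w => if w ∈ B then 1 else 0)
  have h2 : ∀ e ∈ (univ : Finset E), Z e * ((if v (e, false) ∈ B then (1 : F2) else 0) +
      (if v (e, true) ∈ B then 1 else 0)) =
      if e ∈ bdry G (univ.filter (fun e => Z e = 1)) B then 1 else 0 := by
    intro e _
    have h3 : e ∈ bdry G (univ.filter (fun e => Z e = 1)) B ↔
        Z e = 1 ∧ ¬ (v (e, false) ∈ B ↔ v (e, true) ∈ B) := by
      unfold bdry
      rw [Finset.mem_filter, cross_iff G v hv]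
      simp
    rcases f2_cases (Z e) with hz | hz <;> by_cases h4 : v (e, false) ∈ B <;>
      by_cases h5 : v (e, true) ∈ B <;> simp [h3, hz, h4, h5] <;> exact f2_add_self _
  rw [Finset.sum_congr rfl h2, Finset.sum_boole, Finset.filter_univ_mem] at h1
  have h4 := (ZMod.natCast_eq_zero_iff_even).1 h1
  exact h4

lemma tab8 : ∀ x y z : F2, (x ≠ 0 ∨ y ≠ 0 ∨ z ≠ 0) → ∀ w : F2,
    ((univ : Finset (F2 × F2 × F2)).filter
      (fun t => w + t.1 * x + t.2.1 * y + t.2.2 * z = 1)).card = 4 := by
  decide +kernel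

end Pool.Agent.H44.RT
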