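import Pool.Agent.H44.RT.Small

set_option autoImplicit false
set_option linter.unusedSectionVars false

/-!
Disjoint spanning two-edge-connected subgraphs and one more disjoint spanning connected subgraph.
-/

namespace Pool.Agent.H44.RT

open Finset
open Pool.Agent.Helper879.ECD (F2 IsFlow inc cn f2_add_self f2_cases)
open Pool.Agent.H126R2.CDC (MGraph isFl_iff)
open Pool.Agent.H126R2.NC (InCone InLat InIntCone TC cover_minus f2_ne cr cone_lat_of_intCone)
open Pool.Agent.TH399.CC (intCone_add intCone_sum isEven_of_isFlow exists_flow_on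
  exists_flow8_minus isFlow_add isFlow_smul block odd_part)

variable {V E : Type} [Fintype V] [DecidableEq V] [Fintype E] [DecidableEq E]

/-- the inequalities -/
lemma arith (k γ ρ α β μ : ℕ) (hk : 1 ≤ k) (hρ : ρ < 4 * k) (hμ : μ = 4 * k * γ + ρ)
    (hα : α = 1 ∨ α = 2) (hκ : (4 * k - 2) * γ + ρ = α + 2 * β) (x : ℕ) (hx : μ ≤ x)
    (hx' : x + 6 * k ≤ 2 * k * μ + 3) :
    x - 4 * k * γ ≤ k * (4 * β + α) ∧
    x - (2 * γ + 2 * β + α) ≤ (4 * γ + 8 * ((k - 1) * γ)) + (k - 1) * (4 * β + α) ∧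
    x ≤ 8 * (k * γ) + k * (4 * β + α) ∧ 2 * γ + 2 * β + α = μ := by
  obtain ⟨n, rfl⟩ : ∃ n, k = n + 1 := ⟨k - 1, by omega⟩
  have h1 : 4 * (n + 1) - 2 = 4 * n + 2 := by omega
  rw [h1] at hκ
  have h2 : n + 1 - 1 = n := by omega
  rw [h2]
  have hβ : 2 * β = (4 * n + 2) * γ + ρ - α := by omega
  have e1 : 4 * (n + 1) * γ = 4 * (n * γ) + 4 * γ := by ring
  have e2 : (4 * n + 2) * γ = 4 * (n * γ) + 2 * γ := by ring
  rw [e2] at hκ
  rw [e1] at hμ
  have e3 : 2 * (n + 1) * μ = 8 * (n * (n * γ)) + 16 * (n * γ) + 8 * γ + 2 * (n * ρ) + 2 * ρ := by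
    rw [hμ]; ring
  rw [e3] at hx'
  have e4 : n * (4 * β + α) = 4 * (n * β) + n * α := by ring
  have e5 : (n + 1) * (4 * β + α) = 4 * (n * β) + n * α + 4 * β + α := by ring
  have e6 : n * α + 2 * (n * β) = 4 * (n * (n * γ)) + 2 * (n * γ) + n * ρ := by
    have : n * (4 * (n * γ) + 2 * γ + ρ) = n * (α + 2 * β) := by rw [hκ]
    nlinarith
  have e7 : n * α ≤ 2 * n := by
    rcases hα with rfl | rfl <;> omega
  have e8 : (n + 1) * γ = n * γ + γ := by ring
  rw [e4, e5, e1, e8]
  refine ⟨?_, ?_, ?_, ?_⟩ <;> omega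

/-- even weights `2 h` -/
theorem pack_even (G : MGraph V E) (k : ℕ) (hk : 1 ≤ k) (A : Fin k → Finset E) (T : Finset E)
    (hA : ∀ i, ∀ B : Finset V, B.Nonempty → B ≠ univ → 2 ≤ (bdry G (A i) B).card)
    (hT : ∀ B : Finset V, B.Nonempty → B ≠ univ → ∃ e ∈ T, Leaves G e B)
    (hd : ∀ i j, i ≠ j → Disjoint (A i) (A j)) (hdT : ∀ i, Disjoint (A i) T)
    (h : E → ℕ) (hh : ∀ e f, h e + 6 * k ≤ 2 * k * h f + 3) :
    InIntCone G (fun e => 2 * h e) := by
  classical
  by_cases hE : IsEmpty E
  · exact ⟨0, by simp, fun e => (hE.false e).elim⟩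
  rw [not_isEmpty_iff] at hE
  obtain ⟨e0, -, hmin⟩ := Finset.exists_min_image (univ : Finset E) h (Finset.univ_nonempty)
  have hlow : ∀ e, h e0 ≤ h e := fun e => hmin e (Finset.mem_univ _)
  have hupp : ∀ e, h e + 6 * k ≤ 2 * k * h e0 + 3 := fun e => hh e e0
  set μ := h e0 with hμdef
  obtain ⟨γ, ρ, hρ, hμ⟩ : ∃ γ ρ, ρ < 4 * k ∧ μ = 4 * k * γ + ρ :=
    ⟨μ / (4 * k), μ % (4 * k), Nat.mod_lt _ (by omega), (Nat.div_add_mod _ _).symm⟩
  have hpos : 1 ≤ μ := by
    rcases Nat.eq_zero_or_pos μ with h0 | h0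
    · have := hupp e0
      rw [h0, mul_zero] at this
      omega
    · exact h0
  have hκpos : 1 ≤ (4 * k - 2) * γ + ρ := by
    rcases Nat.eq_zero_or_pos γ with h0 | h0
    · rw [h0, mul_zero, zero_add] at hμ
      omega
    · have : 1 * 1 ≤ (4 * k - 2) * γ := Nat.mul_le_mul (by omega) h0
      omega
  obtain ⟨β, α, hα, hκ⟩ : ∃ β α, (α = 1 ∨ α = 2) ∧ (4 * k - 2) * γ + ρ = α + 2 * β :=
    ⟨((4 * k - 2) * γ + ρ - 1) / 2,
      ((4 * k - 2) * γ + ρ) - 2 * (((4 * k - 2) * γ + ρ - 1) / 2), by omega, by omega⟩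
  have har := fun e => arith k γ ρ α β μ hk hρ hμ hα hκ (h e) (hlow e) (hupp e)
  -- at most one set contains an edge
  have hA1 : ∀ e i j, e ∈ A i → e ∈ A j → i = j := by
    intro e i j hi hj
    by_contra hne
    exact (Finset.disjoint_left.1 (hd i j hne) hi) hj
  have hTA : ∀ e i, e ∈ T → e ∉ A i := fun e i he h => (Finset.disjoint_left.1 (hdT i) h) he
  -- the bases and the capacities
  let cT : E → Fin k × Fin γ → ℕ := fun e q => if e ∈ T then 0 else if e ∈ A q.1 then 4 else 8
  let cA : E → Fin k × Fin β → ℕ := fun e q => if e ∈ A q.1 then 0 else 2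
  let cC : E → Fin k × Fin α → ℕ := fun e q => if e ∈ A q.1 then 0 else 1
  let bT : E → Fin k × Fin γ → ℕ := fun e q => if e ∈ T then 4 else if e ∈ A q.1 then 2 else 0
  let bA : E → Fin k × Fin β → ℕ := fun e q => if e ∈ A q.1 then 2 else 0
  let bC : E → Fin k × Fin α → ℕ := fun e q => if e ∈ A q.1 then 1 else 0
  have hcount : ∀ (e : E) (m a b : ℕ) (i0 : Fin k), e ∈ A i0 →
      ∑ q : Fin k × Fin m, (if e ∈ A q.1 then a else b) = a * m + b * ((k - 1) * m) := by
    intro e m a b i0 hi0
    rw [Fintype.sum_prod_type]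
    have h1 : ∀ i ∈ (univ : Finset (Fin k)), ∑ _y : Fin m, (if e ∈ A i then a else b) =
        b * m + (if i = i0 then a * m else 0) - (if i = i0 then b * m else 0) := by
      intro i _
      rw [Finset.sum_const, Finset.card_univ, Fintype.card_fin, smul_eq_mul]
      by_cases hi : i = i0
      · subst hi
        simp only [hi0, if_true]
        rw [Nat.add_sub_cancel_left, mul_comm]
      · have h2 : e ∉ A i := fun h => hi (hA1 e i i0 h hi0)
        simp only [h2, hi, if_false]
        rw [mul_comm]; omega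
    have h3 : ∑ i : Fin k, ∑ _y : Fin m, (if e ∈ A i then a else b) + b * m =
        b * (k * m) + a * m := by
      rw [Finset.sum_congr rfl h1, ← Finset.sum_erase_add _ _ (Finset.mem_univ i0)]
      have h4 : ∀ i ∈ univ.erase i0, b * m + (if i = i0 then a * m else 0) -
          (if i = i0 then b * m else 0) = b * m := by
        intro i hi
        have := Finset.ne_of_mem_erase hi
        simp [this]
      rw [Finset.sum_congr rfl h4, Finset.sum_const, Finset.card_erase_of_mem (Finset.mem_univ _),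
        Finset.card_univ, Fintype.card_fin, smul_eq_mul]
      simp only [if_true]
      obtain ⟨n, rfl⟩ : ∃ n, k = n + 1 := ⟨k - 1, by omega⟩
      have h5 : n + 1 - 1 = n := by omega
      rw [h5]
      have h6 : b * ((n + 1) * m) = n * (b * m) + b * m := by ring
      omega
    show ∑ i : Fin k, ∑ _y : Fin m, (if e ∈ A i then a else b) = _
    obtain ⟨n, hn⟩ : ∃ n, k = n + 1 := ⟨k - 1, by omega⟩
    have h5 : k - 1 = n := by omega
    rw [h5]
    have h6 : b * (k * m) = b * (n * m) + b * m := by rw [hn]; ring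
    omega
  have hcount0 : ∀ (e : E) (m a b : ℕ), (∀ i, e ∉ A i) →
      ∑ q : Fin k × Fin m, (if e ∈ A q.1 then a else b) = b * (k * m) := by
    intro e m a b hi
    have h1 : ∀ q ∈ (univ : Finset (Fin k × Fin m)), (if e ∈ A q.1 then a else b) = b := by
      intro q _
      simp [hi q.1]
    rw [Finset.sum_congr rfl h1, Finset.sum_const, Finset.card_univ, Fintype.card_prod,
      Fintype.card_fin, Fintype.card_fin, smul_eq_mul, mul_comm]
  have hkey : ∀ e, ∃ (f : Fin k × Fin γ → ℕ) (g : Fin k × Fin β → ℕ) (l : Fin k × Fin α → ℕ),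
      (∀ q, f q ≤ cT e q) ∧ (∀ q, g q ≤ cA e q) ∧ (∀ q, l q ≤ cC e q) ∧
      h e = (∑ q, bT e q + ∑ q, bA e q + ∑ q, bC e q) + (∑ q, f q + (2 * ∑ q, g q + ∑ q, l q)) := by
    intro e
    obtain ⟨a1, a2, a3, a4⟩ := har e
    have hl := hlow e
    have hα1 : 1 ≤ α := by omega
    by_cases heT : e ∈ T
    · have hi : ∀ i, e ∉ A i := fun i => hTA e i heT
      have s1 : ∑ q, bT e q = 4 * (k * γ) := by
        simp only [bT, heT, if_true]
        rw [Finset.sum_const, Finset.card_univ, Fintype.card_prod, Fintype.card_fin,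
          Fintype.card_fin, smul_eq_mul, mul_comm]
      have s2 : ∑ q, bA e q = 0 := by rw [hcount0 e β 2 0 hi, zero_mul]
      have s3 : ∑ q, bC e q = 0 := by rw [hcount0 e α 1 0 hi, zero_mul]
      have s4 : ∑ q, cA e q = 2 * (k * β) := hcount0 e β 0 2 hi
      have s5 : ∑ q, cC e q = 1 * (k * α) := hcount0 e α 0 1 hi
      have s6 : k * (4 * β + α) = 2 * (2 * (k * β)) + 1 * (k * α) := by ring
      have s7 : 4 * k * γ = 4 * (k * γ) := by ring
      have s8 : 1 * 1 ≤ k * α := Nat.mul_le_mul hk hα1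
      obtain ⟨g, l, hg, hl', hgl⟩ := split2 (univ : Finset (Fin k × Fin β))
        (univ : Finset (Fin k × Fin α)) (cA e) (cC e) (h e - 4 * (k * γ)) (by
          rw [s4, s5]; omega) (by rw [s5]; left; omega)
      refine ⟨fun _ => 0, g, l, fun q => Nat.zero_le _, hg, hl', ?_⟩
      rw [hgl, s1, s2, s3]
      simp only [Finset.sum_const_zero]
      omega
    · by_cases hex : ∃ i, e ∈ A i
      · obtain ⟨i0, hi0⟩ := hex
        have s1 : ∑ q, bT e q = 2 * γ + 0 * ((k - 1) * γ) := by
          have : ∀ q ∈ (univ : Finset (Fin k × Fin γ)), bT e q = if e ∈ A q.1 then 2 else 0 := by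
            intro q _
            simp only [bT, heT, if_false]
          rw [Finset.sum_congr rfl this]
          exact hcount e γ 2 0 i0 hi0
        have s2 : ∑ q, bA e q = 2 * β + 0 * ((k - 1) * β) := hcount e β 2 0 i0 hi0
        have s3 : ∑ q, bC e q = 1 * α + 0 * ((k - 1) * α) := hcount e α 1 0 i0 hi0
        have s0 : ∑ q, cT e q = 4 * γ + 8 * ((k - 1) * γ) := by
          have : ∀ q ∈ (univ : Finset (Fin k × Fin γ)), cT e q = if e ∈ A q.1 then 4 else 8 := by
            intro q _
            simp only [cT, heT, if_false]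
          rw [Finset.sum_congr rfl this]
          exact hcount e γ 4 8 i0 hi0
        have s4 : ∑ q, cA e q = 0 * β + 2 * ((k - 1) * β) := hcount e β 0 2 i0 hi0
        have s5 : ∑ q, cC e q = 0 * α + 1 * ((k - 1) * α) := hcount e α 0 1 i0 hi0
        have s6 : (k - 1) * (4 * β + α) = 2 * (2 * ((k - 1) * β)) + 1 * ((k - 1) * α) := by ring
        obtain ⟨f, hf, hf'⟩ := exists_split (univ : Finset (Fin k × Fin γ)) (cT e)
          (min (h e - (2 * γ + 2 * β + α)) (4 * γ + 8 * ((k - 1) * γ))) (by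
            rw [s0]; exact min_le_right _ _)
        have s9 : k = 1 ∨ 1 ≤ (k - 1) * α := by
          rcases Nat.lt_or_ge 1 k with h1 | h1
          · right
            have : 1 * 1 ≤ (k - 1) * α := Nat.mul_le_mul (by omega) hα1
            omega
          · left; omega
        obtain ⟨g, l, hg, hl', hgl⟩ := split2 (univ : Finset (Fin k × Fin β))
          (univ : Finset (Fin k × Fin α)) (cA e) (cC e)
          (h e - (2 * γ + 2 * β + α) - min (h e - (2 * γ + 2 * β + α))
            (4 * γ + 8 * ((k - 1) * γ))) (by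
            rw [s4, s5]; omega) (by
            rw [s5]
            rcases s9 with s9 | s9
            · right
              subst s9
              simp only [Nat.sub_self, zero_mul, mul_zero, add_zero] at a2 ⊢
              omega
            · left; omega)
        refine ⟨f, g, l, hf, hg, hl', ?_⟩
        rw [hgl, hf', s1, s2, s3]
        omega
      · push Not at hex
        have s1 : ∑ q, bT e q = 0 * (k * γ) := by
          have : ∀ q ∈ (univ : Finset (Fin k × Fin γ)), bT e q = if e ∈ A q.1 then 2 else 0 := by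
            intro q _
            simp only [bT, heT, if_false]
          rw [Finset.sum_congr rfl this]
          exact hcount0 e γ 2 0 hex
        have s0 : ∑ q, cT e q = 8 * (k * γ) := by
          have : ∀ q ∈ (univ : Finset (Fin k × Fin γ)), cT e q = if e ∈ A q.1 then 4 else 8 := by
            intro q _
            simp only [cT, heT, if_false]
          rw [Finset.sum_congr rfl this]
          exact hcount0 e γ 4 8 hex
        have s2 : ∑ q, bA e q = 0 := by rw [hcount0 e β 2 0 hex, zero_mul]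
        have s3 : ∑ q, bC e q = 0 := by rw [hcount0 e α 1 0 hex, zero_mul]
        have s4 : ∑ q, cA e q = 2 * (k * β) := hcount0 e β 0 2 hex
        have s5 : ∑ q, cC e q = 1 * (k * α) := hcount0 e α 0 1 hex
        have s6 : k * (4 * β + α) = 2 * (2 * (k * β)) + 1 * (k * α) := by ring
        have s8 : 1 * 1 ≤ k * α := Nat.mul_le_mul hk hα1
        obtain ⟨f, hf, hf'⟩ := exists_split (univ : Finset (Fin k × Fin γ)) (cT e)
          (min (h e) (8 * (k * γ))) (by rw [s0]; exact min_le_right _ _)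
        obtain ⟨g, l, hg, hl', hgl⟩ := split2 (univ : Finset (Fin k × Fin β))
          (univ : Finset (Fin k × Fin α)) (cA e) (cC e) (h e - min (h e) (8 * (k * γ))) (by
            rw [s4, s5]; omega) (by rw [s5]; left; omega)
        refine ⟨f, g, l, hf, hg, hl', ?_⟩
        rw [hgl, hf', s1, s2, s3]
        omega
  choose f g l hf hg hl hsum using hkey
  have hTb := intCone_sum G (univ : Finset (Fin k × Fin γ))
    (fun q e => (if e ∈ T then 8 else if e ∈ A q.1 then 4 else 0) + 2 * f e q)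
    (fun q _ => blkT G (A q.1) T (hA q.1) hT (hdT q.1) _ (fun e => hf e q))
  have hAb := intCone_sum G (univ : Finset (Fin k × Fin β))
    (fun q e => if e ∈ A q.1 then 4 else 4 * g e q)
    (fun q _ => blkA G (A q.1) (hA q.1) _ (fun e => by
      refine le_trans (hg e q) ?_
      show (if e ∈ A q.1 then 0 else 2) ≤ 2
      split_ifs <;> omega))
  have hCb := intCone_sum G (univ : Finset (Fin k × Fin α))
    (fun q e => if e ∈ A q.1 then 2 else 2 * l e q)
    (fun q _ => blkC G (A q.1) (hA q.1) _ (fun e => by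
      refine le_trans (hl e q) ?_
      show (if e ∈ A q.1 then 0 else 1) ≤ 1
      split_ifs <;> omega))
  refine intCone_add G (intCone_add G hTb hAb (fun e => rfl)) hCb ?_
  intro e
  have t1 : ∑ q : Fin k × Fin γ, ((if e ∈ T then 8 else if e ∈ A q.1 then 4 else 0) + 2 * f e q) =
      2 * (∑ q, bT e q + ∑ q, f e q) := by
    rw [← Finset.sum_add_distrib, Finset.mul_sum]
    apply Finset.sum_congr rfl
    intro q _
    show _ = 2 * ((if e ∈ T then 4 else if e ∈ A q.1 then 2 else 0) + f e q)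
    split_ifs <;> ring
  have t2 : ∑ q : Fin k × Fin β, (if e ∈ A q.1 then 4 else 4 * g e q) =
      2 * (∑ q, bA e q + 2 * ∑ q, g e q) := by
    rw [Finset.mul_sum (s := univ) (f := fun q => g e q), ← Finset.sum_add_distrib,
      Finset.mul_sum]
    apply Finset.sum_congr rfl
    intro q _
    have h1 : g e q ≤ if e ∈ A q.1 then 0 else 2 := hg e q
    show _ = 2 * ((if e ∈ A q.1 then 2 else 0) + 2 * g e q)
    by_cases h2 : e ∈ A q.1
    · simp only [h2, if_true] at h1 ⊢
      omega
    · simp only [h2, if_false]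
      ring
  have t3 : ∑ q : Fin k × Fin α, (if e ∈ A q.1 then 2 else 2 * l e q) =
      2 * (∑ q, bC e q + ∑ q, l e q) := by
    rw [← Finset.sum_add_distrib, Finset.mul_sum]
    apply Finset.sum_congr rfl
    intro q _
    have h1 : l e q ≤ if e ∈ A q.1 then 0 else 1 := hl e q
    show _ = 2 * ((if e ∈ A q.1 then 1 else 0) + l e q)
    by_cases h2 : e ∈ A q.1
    · simp only [h2, if_true] at h1 ⊢
      omega
    · simp only [h2, if_false]
      ring
  show 2 * h e = ∑ q : Fin k × Fin γ,
    ((if e ∈ T then 8 else if e ∈ A q.1 then 4 else 0) + 2 * f e q) +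
    ∑ q : Fin k × Fin β, (if e ∈ A q.1 then 4 else 4 * g e q) +
    ∑ q : Fin k × Fin α, (if e ∈ A q.1 then 2 else 2 * l e q)
  rw [t1, t2, t3]
  have := hsum e
  omega

/-- weights in the lattice -/
theorem pack_lat (G : MGraph V E) (k : ℕ) (hk : 1 ≤ k) (A : Fin k → Finset E) (T : Finset E)
    (hA : ∀ i, ∀ B : Finset V, B.Nonempty → B ≠ univ → 2 ≤ (bdry G (A i) B).card)
    (hT : ∀ B : Finset V, B.Nonempty → B ≠ univ → ∃ e ∈ T, Leaves G e B)
    (hd : ∀ i j, i ≠ j → Disjoint (A i) (A j)) (hdT : ∀ i, Disjoint (A i) T)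
    (p : E → ℕ) (hh : ∀ e f, p e / 2 + 6 * k ≤ 2 * k * (p f / 2) + 3) :
    InIntCone G p ↔ InLat G p := by
  refine ⟨fun h => (cone_lat_of_intCone G p h).2, fun hlat => ?_⟩
  refine intCone_add G (pack_even G k hk A T hA hT hd hdT (fun e => p e / 2) hh)
    (odd_part G p hlat) ?_
  intro e
  show p e = 2 * (p e / 2) + p e % 2
  omega

end Pool.Agent.H44.RT
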