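import Pool.Agent.H44.RT.EdgeConn

set_option autoImplicit false
set_option linter.unusedSectionVars false

/-!
Packed closed trails: even weightings of larger ratio.
-/

namespace Pool.Agent.H44.RT

open Finset
open Pool.Agent.Helper879.ECD (F2 IsFlow inc cn f2_add_self f2_cases)
open Pool.Agent.H126R2.CDC (MGraph isFl_iff)
open Pool.Agent.H126R2.NC (InCone InLat InIntCone)
open Pool.Agent.TH399.CC (intCone_add intCone_sum isEven_of_isFlow exists_flow_on
  exists_flow8_minus isFlow_add isFlow_smul)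

variable {V E : Type} [Fintype V] [DecidableEq V] [Fintype E] [DecidableEq E]

/-- the subgraph with edge set `S` -/
def sub (G : MGraph V E) (S : Finset E) : MGraph V {e // e ∈ S} := ⟨fun e => G.ends e.1⟩

lemma deg_map (G : MGraph V E) (S : Finset E) (C : Finset {e // e ∈ S}) (w : V) :
    G.deg (C.map (Function.Embedding.subtype _)) w = (sub G S).deg C w := by
  unfold MGraph.deg
  rw [Finset.filter_map, Finset.filter_map, Finset.card_map, Finset.card_map]
  rfl

/-- a circuit of a subgraph is a circuit -/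
lemma circuit_sub (G : MGraph V E) (S : Finset E) (C : Finset {e // e ∈ S})
    (hC : (sub G S).IsCircuit C) : G.IsCircuit (C.map (Function.Embedding.subtype _)) := by
  obtain ⟨h1, h2, h3⟩ := hC
  refine ⟨Finset.map_nonempty.2 h1, ?_, ?_⟩
  · intro w
    rw [deg_map]
    exact h2 w
  · intro e he f hf
    rw [Finset.mem_map] at he hf
    obtain ⟨e, he, rfl⟩ := he
    obtain ⟨f, hf, rfl⟩ := hf
    refine Relation.ReflTransGen.lift (fun a : {e // e ∈ S} => a.1) ?_ e f (h3 e he f hf)
    rintro a b ⟨hb, w, hw1, hw2⟩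
    exact ⟨Finset.mem_map.2 ⟨b, hb, rfl⟩, w, hw1, hw2⟩

lemma intCone_sub (G : MGraph V E) (S : Finset E) (p : E → ℕ) (hp : ∀ e, e ∉ S → p e = 0)
    (h : InIntCone (sub G S) (fun e => p e.1)) : InIntCone G p := by
  obtain ⟨F, hF1, hF2⟩ := h
  refine ⟨F.map (fun C => C.map (Function.Embedding.subtype _)), ?_, ?_⟩
  · intro C hC
    rw [Multiset.mem_map] at hC
    obtain ⟨C, hC, rfl⟩ := hC
    exact circuit_sub G S C (hF1 C hC)
  · intro e
    rw [Multiset.countP_map, ← Multiset.countP_eq_card_filter]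
    by_cases he : e ∈ S
    · refine Eq.trans ?_ (hF2 ⟨e, he⟩)
      apply Multiset.countP_congr rfl
      intro C _
      simp [he]
    · rw [hp e he, Multiset.countP_eq_zero]
      intro C _ h1
      rw [Finset.mem_map] at h1
      obtain ⟨f, _, rfl⟩ := h1
      exact he f.2

lemma split_step (a t n : ℕ) (h1 : a ≤ t) (h2 : t ≤ 2 * a * (n + 1)) :
    ∃ x, a ≤ x ∧ x ≤ 2 * a ∧ x ≤ t ∧ (t - x = 0 ∨ a ≤ t - x) ∧ t - x ≤ 2 * a * n := by
  by_cases h3 : t ≤ 2 * a
  · exact ⟨t, h1, h3, le_rfl, Or.inl (by omega), by omega⟩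
  · rw [Nat.mul_add, Nat.mul_one] at h2
    have h4 : 1 ≤ n := by
      by_contra h
      have : n = 0 := by omega
      subst this
      omega
    have h5 : 2 * a ≤ 2 * a * n := Nat.le_mul_of_pos_right _ h4
    exact ⟨min (2 * a) (t - a), by omega, by omega, by omega, by omega, by omega⟩

lemma split_many {ι : Type} [DecidableEq ι] (a : ℕ) (s : Finset ι) (t : ℕ)
    (h1 : t = 0 ∨ a ≤ t) (h2 : t ≤ 2 * a * s.card) :
    ∃ f : ι → ℕ, (∀ i, f i = 0 ∨ (a ≤ f i ∧ f i ≤ 2 * a)) ∧ ∑ i ∈ s, f i = t := by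
  induction s using Finset.induction_on generalizing t with
  | empty =>
    refine ⟨fun _ => 0, fun i => Or.inl rfl, ?_⟩
    simp at h2 ⊢
    exact h2.symm
  | insert i s hi ih =>
    rcases h1 with h1 | h1
    · exact ⟨fun _ => 0, fun i => Or.inl rfl, by simp [h1]⟩
    rw [Finset.card_insert_of_notMem hi] at h2
    obtain ⟨x, hx1, hx2, hx3, hx4, hx5⟩ := split_step a t s.card h1 h2
    obtain ⟨f, hf1, hf2⟩ := ih (t - x) hx4 hx5
    refine ⟨Function.update f i x, ?_, ?_⟩
    · intro j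
      by_cases hj : j = i
      · subst hj
        rw [Function.update_self]
        exact Or.inr ⟨hx1, hx2⟩
      · rw [Function.update_of_ne hj]
        exact hf1 j
    · rw [Finset.sum_insert hi, Function.update_self]
      have h3 : ∑ j ∈ s, Function.update f i x j = ∑ j ∈ s, f j := by
        apply Finset.sum_congr rfl
        intro j hj
        rw [Function.update_of_ne]
        rintro rfl
        exact hi hj
      rw [h3, hf2]
      omega

/-- splitting a number into parts between `a` and `2 a`, one of them at a given place -/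
lemma split_home (r a t : ℕ) (ha : 1 ≤ a) (j : Fin r) (h1 : a ≤ t) (h2 : t ≤ 2 * a * r) :
    ∃ f : Fin r → ℕ, (∀ i, f i = 0 ∨ (a ≤ f i ∧ f i ≤ 2 * a)) ∧ f j ≠ 0 ∧ ∑ i, f i = t := by
  classical
  have hr : 0 < r := j.pos
  have h3 : (univ.erase j : Finset (Fin r)).card = r - 1 := by
    rw [Finset.card_erase_of_mem (Finset.mem_univ _), Finset.card_univ, Fintype.card_fin]
  obtain ⟨x, hx1, hx2, hx3, hx4, hx5⟩ := split_step a t (r - 1) h1 (by
    rw [Nat.sub_add_cancel hr]; exact h2)
  obtain ⟨f, hf1, hf2⟩ := split_many a (univ.erase j) (t - x) hx4 (by rw [h3]; exact hx5)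
  refine ⟨Function.update f j x, ?_, ?_, ?_⟩
  · intro i
    by_cases hj : i = j
    · subst hj
      rw [Function.update_self]
      exact Or.inr ⟨hx1, hx2⟩
    · rw [Function.update_of_ne hj]
      exact hf1 i
  · rw [Function.update_self]
    omega
  · rw [← Finset.add_sum_erase univ _ (Finset.mem_univ j), Function.update_self]
    have h3 : ∑ i ∈ univ.erase j, Function.update f j x i = ∑ i ∈ univ.erase j, f i := by
      apply Finset.sum_congr rfl
      intro i hi
      rw [Function.update_of_ne (Finset.ne_of_mem_erase hi)]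
    rw [h3, hf2]
    omega

/-- ratio two inside the support, for a spanning closed trail `X` and a connected set `Y` -/
lemma block_sub (G : MGraph V E) (X Y : Finset E) (hX : G.IsEven X)
    (hin : ∀ B : Finset V, B.Nonempty → B ≠ univ → ∃ e ∈ X, Leaves G e B)
    (hout : ∀ B : Finset V, B.Nonempty → B ≠ univ → ∃ e ∈ Y, Leaves G e B)
    (hd : Disjoint X Y) (a : ℕ) (p : E → ℕ) (hp : ∀ e, Even (p e))
    (h0 : ∀ e, p e = 0 ∨ (2 * a ≤ p e ∧ p e ≤ 4 * a))
    (hXY : ∀ e, e ∈ X ∨ e ∈ Y → p e ≠ 0) : InIntCone G p := by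
  classical
  set S : Finset E := univ.filter (fun e => p e ≠ 0) with hS
  have hSX : ∀ e, e ∈ X ∨ e ∈ Y → e ∈ S := fun e he => by
    rw [hS, Finset.mem_filter]; exact ⟨Finset.mem_univ _, hXY e he⟩
  refine intCone_sub G S p (fun e he => by
    by_contra h
    exact he (by rw [hS, Finset.mem_filter]; exact ⟨Finset.mem_univ _, h⟩)) ?_
  refine of_blocks (sub G S) (fun J => ?_) _ (fun e => hp e.1) ?_
  · refine block_trail (sub G S) (X.subtype (fun e => e ∈ S)) ?_ ?_ ?_ J
    · have h1 : (X.subtype (fun e => e ∈ S)).map (Function.Embedding.subtype _) = X := by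
        rw [Finset.subtype_map]
        rw [Finset.filter_eq_self]
        exact fun e he => hSX e (Or.inl he)
      intro w
      rw [← deg_map, h1]
      exact hX w
    · intro B hB1 hB2
      obtain ⟨e, he, hl⟩ := hin B hB1 hB2
      exact ⟨⟨e, hSX e (Or.inl he)⟩, by simpa using he, hl⟩
    · intro B hB1 hB2
      obtain ⟨e, he, hl⟩ := hout B hB1 hB2
      refine ⟨⟨e, hSX e (Or.inr he)⟩, ?_, hl⟩
      have h2 := Finset.disjoint_right.1 hd he
      simpa using h2
  · intro e f
    have he : p e.1 ≠ 0 := (Finset.mem_filter.1 e.2).2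
    have hf : p f.1 ≠ 0 := (Finset.mem_filter.1 f.2).2
    have h1 := h0 e.1
    have h2 := h0 f.1
    omega

/-- packed closed trails -/
theorem packed (G : MGraph V E) (r : ℕ) (X Y : Fin r → Finset E) (hX : ∀ i, G.IsEven (X i))
    (hin : ∀ i, ∀ B : Finset V, B.Nonempty → B ≠ univ → ∃ e ∈ X i, Leaves G e B)
    (hout : ∀ i, ∀ B : Finset V, B.Nonempty → B ≠ univ → ∃ e ∈ Y i, Leaves G e B)
    (hd : ∀ i, Disjoint (X i) (Y i)) (hdd : ∀ i j, i ≠ j → Disjoint (X i ∪ Y i) (X j ∪ Y j))
    (p : E → ℕ) (hp : ∀ e, Even (p e)) (h2 : ∀ e f, p e ≤ 2 * r * p f) : InIntCone G p := by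
  classical
  by_cases hE : Nonempty E
  · obtain ⟨e0, -, hmin⟩ := Finset.exists_min_image (univ : Finset E) p
      ⟨hE.some, Finset.mem_univ _⟩
    obtain ⟨a, ha⟩ := hp e0
    rcases Nat.eq_zero_or_pos a with rfl | ha0
    · refine ⟨0, by simp, fun e => ?_⟩
      have := h2 e e0
      rw [ha] at this
      simp at this ⊢
      exact this.symm
    have hr : 0 < r := by
      rcases Nat.eq_zero_or_pos r with h | h
      · exfalso
        have := h2 e0 e0
        rw [h] at this
        omega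
      · exact h
    have hhome : ∀ e, ∃ j : Fin r, ∀ i, e ∈ X i ∪ Y i → i = j := by
      intro e
      by_cases h : ∃ i, e ∈ X i ∪ Y i
      · obtain ⟨j, hj⟩ := h
        refine ⟨j, fun i hi => ?_⟩
        by_contra hne
        exact Finset.disjoint_left.1 (hdd i j hne) hi hj
      · push Not at h
        exact ⟨⟨0, hr⟩, fun i hi => absurd hi (h i)⟩
    choose home hhome using hhome
    have hsp : ∀ e, ∃ f : Fin r → ℕ, (∀ i, f i = 0 ∨ (a ≤ f i ∧ f i ≤ 2 * a)) ∧
        f (home e) ≠ 0 ∧ ∑ i, f i = p e / 2 := by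
      intro e
      have h3 := hmin e (Finset.mem_univ _)
      have h4 := h2 e e0
      apply split_home r a (p e / 2) ha0 (home e) (by omega)
      rw [ha] at h4
      have h5 : 2 * r * (a + a) = 2 * (2 * a * r) := by ring
      omega
    choose f hf1 hf2 hf3 using hsp
    have h5 := intCone_sum G (univ : Finset (Fin r)) (fun i e => 2 * f e i) (by
      intro i _
      refine block_sub G (X i) (Y i) (hX i) (hin i) (hout i) (hd i) a _
        (fun e => even_two_mul _) ?_ ?_
      · intro e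
        have := hf1 e i
        show 2 * f e i = 0 ∨ (2 * a ≤ 2 * f e i ∧ 2 * f e i ≤ 4 * a)
        omega
      · intro e he
        have h6 : i = home e := hhome e i (Finset.mem_union.2 he)
        have h7 := hf2 e
        rw [← h6] at h7
        show 2 * f e i ≠ 0
        omega)
    have h6 : (fun e => ∑ i, 2 * f e i) = p := by
      ext e
      rw [← Finset.mul_sum, hf3 e]
      obtain ⟨c, hc⟩ := hp e
      omega
    rw [h6] at h5
    exact h5
  · exact ⟨0, by simp, fun e => absurd ⟨e⟩ hE⟩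

/-- three disjoint connected spanning sets contain a spanning closed trail and a connected set -/
lemma trail_of_three (G : MGraph V E) (T₁ T₂ T₃ : Finset E)
    (h₁ : ∀ B : Finset V, B.Nonempty → B ≠ univ → ∃ e ∈ T₁, Leaves G e B)
    (h₂ : ∀ B : Finset V, B.Nonempty → B ≠ univ → ∃ e ∈ T₂, Leaves G e B)
    (h12 : Disjoint T₁ T₂) (h13 : Disjoint T₁ T₃) (h23 : Disjoint T₂ T₃) :
    ∃ X : Finset E, G.IsEven X ∧ X ⊆ T₁ ∪ T₂ ∧ Disjoint X T₃ ∧
      ∀ B : Finset V, B.Nonempty → B ≠ univ → ∃ e ∈ X, Leaves G e B := by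
  classical
  obtain ⟨v, hv⟩ := G.exists_halves
  obtain ⟨Z, hZ1, hZ2⟩ := flow_off G v hv T₂ h₂ T₁
  have hsub : univ.filter (fun e => Z e = 1) ⊆ T₁ ∪ T₂ := by
    intro e he
    by_contra h
    rw [Finset.mem_union, not_or] at h
    have h1 := hZ2 e h.2
    rw [if_neg h.1] at h1
    have h2 := (Finset.mem_filter.1 he).2
    rw [h1] at h2
    exact zero_ne_one h2
  refine ⟨_, isEven_of_isFlow G v hv Z hZ1, hsub, ?_, ?_⟩
  · rw [Finset.disjoint_left]
    intro e he he3
    rcases Finset.mem_union.1 (hsub he) with h | h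
    · exact Finset.disjoint_left.1 h13 h he3
    · exact Finset.disjoint_left.1 h23 h he3
  · intro B hB1 hB2
    obtain ⟨e, he, hl⟩ := h₁ B hB1 hB2
    refine ⟨e, ?_, hl⟩
    rw [Finset.mem_filter]
    refine ⟨Finset.mem_univ _, ?_⟩
    rw [hZ2 e (Finset.disjoint_left.1 h12 he), if_pos he]

/-- `6 r`-edge-connected graphs have packed closed trails -/
theorem packed_of_edgeConn (G : MGraph V E) (r : ℕ)
    (hG : ∀ B : Finset V, B.Nonempty → B ≠ univ → 6 * r ≤ (bdry G univ B).card) :
    ∃ X Y : Fin r → Finset E, (∀ i, G.IsEven (X i)) ∧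
      (∀ i, ∀ B : Finset V, B.Nonempty → B ≠ univ → ∃ e ∈ X i, Leaves G e B) ∧
      (∀ i, ∀ B : Finset V, B.Nonempty → B ≠ univ → ∃ e ∈ Y i, Leaves G e B) ∧
      (∀ i, Disjoint (X i) (Y i)) ∧ ∀ i j, i ≠ j → Disjoint (X i ∪ Y i) (X j ∪ Y j) := by
  obtain ⟨I, hI1, hI2⟩ := trees G (3 * r) (by
    intro B h1 h2
    have := hG B h1 h2
    omega)
  let ix : Fin 3 → Fin r → Fin (3 * r) := fun c i => ⟨3 * i.1 + c.1, by omega⟩
  have hix : ∀ c c' i i', ix c i = ix c' i' → c = c' ∧ i = i' := by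
    intro c c' i i' h
    have h1 : 3 * i.1 + c.1 = 3 * i'.1 + c'.1 := congrArg Fin.val h
    constructor
    · apply Fin.ext; omega
    · apply Fin.ext; omega
  have hdis : ∀ c c' i i', (c ≠ c' ∨ i ≠ i') → Disjoint (I (ix c i)) (I (ix c' i')) := by
    intro c c' i i' h
    apply hI1
    intro h1
    obtain ⟨h2, h3⟩ := hix _ _ _ _ h1
    rcases h with h | h
    · exact h h2
    · exact h h3
  have hX : ∀ i : Fin r, ∃ X : Finset E, G.IsEven X ∧ X ⊆ I (ix 0 i) ∪ I (ix 1 i) ∧
      Disjoint X (I (ix 2 i)) ∧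
      ∀ B : Finset V, B.Nonempty → B ≠ univ → ∃ e ∈ X, Leaves G e B := fun i =>
    trail_of_three G _ _ _ (hI2 _) (hI2 _) (hdis _ _ _ _ (Or.inl (by decide)))
      (hdis _ _ _ _ (Or.inl (by decide))) (hdis _ _ _ _ (Or.inl (by decide)))
  choose X hX1 hX2 hX3 hX4 using hX
  refine ⟨X, fun i => I (ix 2 i), hX1, hX4, fun i => hI2 _, hX3, ?_⟩
  intro i j hij
  have hall : ∀ k e, e ∈ X k ∪ I (ix 2 k) → ∃ c, e ∈ I (ix c k) := by
    intro k e he
    rcases Finset.mem_union.1 he with h | h
    · rcases Finset.mem_union.1 (hX2 k h) with h | h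
      · exact ⟨0, h⟩
      · exact ⟨1, h⟩
    · exact ⟨2, h⟩
  rw [Finset.disjoint_left]
  intro e he he'
  obtain ⟨c, hc⟩ := hall i e he
  obtain ⟨c', hc'⟩ := hall j e he'
  exact Finset.disjoint_left.1 (hdis c c' i j (Or.inr hij)) hc hc'

/-- `(4 k + 2)`-edge-connected graphs: `k` disjoint two-edge-connected spanning edge sets and one
more connected one -/
theorem pairs_of_edgeConn (G : MGraph V E) (k : ℕ)
    (hG : ∀ B : Finset V, B.Nonempty → B ≠ univ → 4 * k + 2 ≤ (bdry G univ B).card) :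
    ∃ (A : Fin k → Finset E) (T : Finset E),
      (∀ i, ∀ B : Finset V, B.Nonempty → B ≠ univ → ∃ e ∈ A i, ∃ f ∈ A i, e ≠ f ∧
        Leaves G e B ∧ Leaves G f B) ∧
      (∀ B : Finset V, B.Nonempty → B ≠ univ → ∃ e ∈ T, Leaves G e B) ∧
      (∀ i j, i ≠ j → Disjoint (A i) (A j)) ∧ ∀ i, Disjoint (A i) T := by
  obtain ⟨I, hI1, hI2⟩ := trees G (2 * k + 1) (by
    intro B h1 h2
    have := hG B h1 h2
    omega)
  let ix : Fin 2 → Fin k → Fin (2 * k + 1) := fun c i => ⟨2 * i.1 + c.1, by omega⟩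
  have hix : ∀ c c' i i', ix c i = ix c' i' → c = c' ∧ i = i' := by
    intro c c' i i' h
    have h1 : 2 * i.1 + c.1 = 2 * i'.1 + c'.1 := congrArg Fin.val h
    constructor
    · apply Fin.ext; omega
    · apply Fin.ext; omega
  have hdis : ∀ c c' i i', (c ≠ c' ∨ i ≠ i') → Disjoint (I (ix c i)) (I (ix c' i')) := by
    intro c c' i i' h
    apply hI1
    intro h1
    obtain ⟨h2, h3⟩ := hix _ _ _ _ h1
    rcases h with h | h
    · exact h h2
    · exact h h3
  let last : Fin (2 * k + 1) := ⟨2 * k, by omega⟩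
  have hlast : ∀ c i, Disjoint (I (ix c i)) (I last) := by
    intro c i
    apply hI1
    intro h
    have h1 : 2 * i.1 + c.1 = 2 * k := congrArg Fin.val h
    have := i.2
    omega
  refine ⟨fun i => I (ix 0 i) ∪ I (ix 1 i), I last, ?_, hI2 _, ?_, ?_⟩
  · intro i B h1 h2
    obtain ⟨e, he, hl⟩ := hI2 (ix 0 i) B h1 h2
    obtain ⟨f, hf, hl'⟩ := hI2 (ix 1 i) B h1 h2
    refine ⟨e, Finset.mem_union_left _ he, f, Finset.mem_union_right _ hf, ?_, hl, hl'⟩
    rintro rfl
    exact Finset.disjoint_left.1 (hdis 0 1 i i (Or.inl (by decide))) he hf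
  · intro i j hij
    rw [Finset.disjoint_left]
    intro e he he'
    rcases Finset.mem_union.1 he with h | h <;> rcases Finset.mem_union.1 he' with h' | h' <;>
      exact Finset.disjoint_left.1 (hdis _ _ i j (Or.inr hij)) h h'
  · intro i
    rw [Finset.disjoint_left]
    intro e he he'
    rcases Finset.mem_union.1 he with h | h
    · exact Finset.disjoint_left.1 (hlast _ _) h he'
    · exact Finset.disjoint_left.1 (hlast _ _) h he'

end Pool.Agent.H44.RT
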