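import Pool.Agent.H44.RT.Sandwich

set_option autoImplicit false
set_option linter.unusedSectionVars false

/-!
Rainbow colourings, and graphs in which the edges of maximum weight connect all the vertices.
-/

namespace Pool.Agent.H44.RT

open Finset
open Pool.Agent.Helper879.ECD (F2 IsFlow inc cn f2_add_self f2_cases)
open Pool.Agent.H126R2.CDC (MGraph isFl_iff)
open Pool.Agent.H126R2.NC (InCone InLat InIntCone)
open Pool.Agent.TH399.CC (intCone_add intCone_sum)

/-- disjoint subsets of size `r` -/
lemma hall_mult {A I : Type} [Fintype A] [DecidableEq A] [Fintype I] [DecidableEq I]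
    (F : I → Finset A) (r : ℕ) (h : ∀ t : Finset I, r * t.card ≤ (t.biUnion F).card) :
    ∃ S : I → Finset A, (∀ i, S i ⊆ F i) ∧ (∀ i, (S i).card = r) ∧
      ∀ i j, i ≠ j → Disjoint (S i) (S j) := by
  classical
  obtain ⟨f, hf1, hf2⟩ := (Finset.all_card_le_biUnion_card_iff_exists_injective
    (fun q : I × Fin r => F q.1)).1 (by
      intro u
      have h1 : u ⊆ (u.image Prod.fst) ×ˢ (univ : Finset (Fin r)) := by
        intro q hq
        rw [Finset.mem_product]
        exact ⟨Finset.mem_image_of_mem _ hq, Finset.mem_univ _⟩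
      have h2 := Finset.card_le_card h1
      rw [Finset.card_product, Finset.card_univ, Fintype.card_fin] at h2
      have h3 := h (u.image Prod.fst)
      have h4 : (u.image Prod.fst).biUnion F = u.biUnion (fun q => F q.1) := by
        rw [Finset.image_biUnion]
      rw [h4] at h3
      calc u.card ≤ (u.image Prod.fst).card * r := h2
        _ = r * (u.image Prod.fst).card := mul_comm _ _
        _ ≤ _ := h3)
  refine ⟨fun i => univ.image (fun j : Fin r => f (i, j)), ?_, ?_, ?_⟩
  · intro i a ha
    obtain ⟨j, _, rfl⟩ := Finset.mem_image.1 ha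
    exact hf2 (i, j)
  · intro i
    rw [Finset.card_image_of_injective, Finset.card_univ, Fintype.card_fin]
    intro j j' hj
    exact (Prod.mk.inj (hf1 hj)).2
  · intro i j hij
    rw [Finset.disjoint_left]
    intro a ha hb
    obtain ⟨k, _, rfl⟩ := Finset.mem_image.1 ha
    obtain ⟨l, _, hl⟩ := Finset.mem_image.1 hb
    exact hij (Prod.mk.inj (hf1 hl)).1.symm

/-- **Lovász.** If the union of any `k ≥ 1` of the sets has more than `r k` elements, then the
elements can be coloured with `r + 1` colours such that every set contains all the colours. -/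
theorem rainbow {A I : Type} [Fintype A] [DecidableEq A] [Fintype I] [DecidableEq I]
    (F : I → Finset A) (r : ℕ)
    (h : ∀ t : Finset I, t.Nonempty → r * t.card + 1 ≤ (t.biUnion F).card) :
    ∃ c : A → Fin (r + 1), ∀ i, ∀ q, ∃ a ∈ F i, c a = q := by
  classical
  obtain ⟨S, hS1, hS2, hS3⟩ := hall_mult F r (by
    intro t
    rcases t.eq_empty_or_nonempty with rfl | ht
    · simp
    · have := h t ht; omega)
  have key : ∀ n : ℕ, ∀ t : Finset I, tᶜ.card = n →
      (∃ c : A → Fin (r + 1), ∀ i ∈ t, ∀ q, ∃ a ∈ F i, (∀ j, j ∉ t → a ∉ S j) ∧ c a = q) →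
      ∃ c : A → Fin (r + 1), ∀ i, ∀ q, ∃ a ∈ F i, c a = q := by
    intro n
    induction n with
    | zero =>
      rintro t ht ⟨c, hc⟩
      have h1 : t = univ := by
        rw [Finset.card_eq_zero, Finset.compl_eq_empty_iff] at ht
        exact ht
      refine ⟨c, fun i q => ?_⟩
      obtain ⟨a, ha, _, hca⟩ := hc i (by rw [h1]; exact Finset.mem_univ _) q
      exact ⟨a, ha, hca⟩
    | succ n ih =>
      rintro t ht ⟨c, hc⟩
      have hne : tᶜ.Nonempty := by rw [← Finset.card_pos]; omega
      -- a set outside `t` with an element outside all the `S j`, `j ∉ t`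
      have hex : ∃ i, i ∉ t ∧ ∃ b ∈ F i, ∀ j, j ∉ t → b ∉ S j := by
        by_contra hcon
        push Not at hcon
        have h1 : tᶜ.biUnion F ⊆ tᶜ.biUnion S := by
          intro a ha
          obtain ⟨i, hi, hai⟩ := Finset.mem_biUnion.1 ha
          obtain ⟨j, hj, haj⟩ := hcon i (by simpa using hi) a hai
          exact Finset.mem_biUnion.2 ⟨j, by simpa using hj, haj⟩
        have h2 := Finset.card_le_card h1
        have h3 : (tᶜ.biUnion S).card ≤ tᶜ.card * r := by
          refine Finset.card_biUnion_le_card_mul _ _ _ (fun i _ => (hS2 i).le)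
        have h4 := h _ hne
        rw [mul_comm] at h4
        omega
      obtain ⟨i, hi, b, hb, hbS⟩ := hex
      -- colour `S i` with the colours other than the one of `b`
      have hcard : (S i).card = (univ.erase (c b) : Finset (Fin (r + 1))).card := by
        rw [hS2 i, Finset.card_erase_of_mem (Finset.mem_univ _), Finset.card_univ,
          Fintype.card_fin, Nat.add_sub_cancel]
      let e := Finset.equivOfCardEq hcard
      refine ih (insert i t) (by
        rw [Finset.compl_insert, Finset.card_erase_of_mem (by simpa using hi)]; omega)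
        ⟨fun a => if ha : a ∈ S i then (e ⟨a, ha⟩).1 else c a, ?_⟩
      intro j hj q
      rcases Finset.mem_insert.1 hj with rfl | hj
      · by_cases hq : q = c b
        · refine ⟨b, hb, fun l hl => hbS l (fun h5 => hl (Finset.mem_insert_of_mem h5)), ?_⟩
          show (if ha : b ∈ S j then (e ⟨b, ha⟩).1 else c b) = q
          rw [dif_neg (hbS j hi)]
          exact hq.symm
        · have hq2 : q ∈ (univ.erase (c b) : Finset (Fin (r + 1))) := by simp [hq]
          obtain ⟨a, ha⟩ : ∃ y, y = e.symm ⟨q, hq2⟩ := ⟨_, rfl⟩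
          refine ⟨a.1, hS1 j a.2, fun l hl hal => ?_, ?_⟩
          · have h5 : l ≠ j := fun h5 => hl (h5 ▸ Finset.mem_insert_self _ _)
            exact Finset.disjoint_left.1 (hS3 l j h5) hal a.2
          · show (if ha : a.1 ∈ S j then (e ⟨a.1, ha⟩).1 else c a.1) = q
            rw [dif_pos a.2]
            have h6 : (⟨a.1, a.2⟩ : {x // x ∈ S j}) = e.symm ⟨q, hq2⟩ := ha
            rw [h6, Equiv.apply_symm_apply]
      · obtain ⟨a, ha, ha2, hca⟩ := hc j hj q
        refine ⟨a, ha, fun l hl => ha2 l (fun h5 => hl (Finset.mem_insert_of_mem h5)), ?_⟩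
        show (if ha : a ∈ S i then (e ⟨a, ha⟩).1 else c a) = q
        rw [dif_neg (ha2 i hi)]
        exact hca
  refine key _ ∅ rfl ⟨fun _ => 0, by simp⟩

variable {V E : Type} [Fintype V] [DecidableEq V] [Fintype E] [DecidableEq E]

/-- The number of the classes of the vertices with respect to vertex sets `B e`, `e ∈ s`, for which
every `e ∈ s` leaves `B e` and no other `B f`. -/
lemma classes_card [Nonempty V] (G : MGraph V E) (B : E → Finset V) (s : Finset E)
    (h1 : ∀ e ∈ s, Leaves G e (B e)) (h2 : ∀ e ∈ s, ∀ f ∈ s, e ≠ f → ¬ Leaves G e (B f)) :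
    s.card + 1 ≤ (univ.image (fun w : V => s.filter (fun e => w ∈ B e))).card := by
  classical
  obtain ⟨v, hv⟩ := G.exists_halves
  induction s using Finset.induction_on with
  | empty =>
    simp only [Finset.card_empty, zero_add]
    rw [Nat.one_le_iff_ne_zero, ← Nat.pos_iff_ne_zero, Finset.card_pos]
    exact Finset.univ_nonempty.image _
  | insert e s he ih =>
    have ih' := ih (fun f hf => h1 f (Finset.mem_insert_of_mem hf))
      (fun f hf g hg => h2 f (Finset.mem_insert_of_mem hf) g (Finset.mem_insert_of_mem hg))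
    rw [Finset.card_insert_of_notMem he]
    set P := univ.image (fun w : V => (insert e s).filter (fun e => w ∈ B e)) with hP
    set Q := univ.image (fun w : V => s.filter (fun e => w ∈ B e)) with hQ
    have herase : ∀ w : V, ((insert e s).filter (fun e => w ∈ B e)).erase e =
        s.filter (fun e => w ∈ B e) := by
      intro w
      ext f
      simp only [Finset.mem_erase, Finset.mem_filter, Finset.mem_insert]
      constructor
      · rintro ⟨h3, h4 | h4, h5⟩
        · exact absurd h4 h3
        · exact ⟨h4, h5⟩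
      · rintro ⟨h3, h4⟩
        exact ⟨fun h => he (h ▸ h3), Or.inr h3, h4⟩
    have himg : P.image (fun S => S.erase e) = Q := by
      rw [hP, hQ, Finset.image_image]
      apply Finset.image_congr
      intro w _
      exact herase w
    have hinj : ¬ Set.InjOn (fun S : Finset E => S.erase e) (P : Set (Finset E)) := by
      intro hinj
      have h3 := h1 e (Finset.mem_insert_self e s)
      have h4 : ¬ (v (e, false) ∈ B e ↔ v (e, true) ∈ B e) := by
        have h5 := h3
        unfold Leaves at h5
        rwa [cross_iff G v hv] at h5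
      have h6 : s.filter (fun f => v (e, false) ∈ B f) = s.filter (fun f => v (e, true) ∈ B f) := by
        apply Finset.filter_congr
        intro f hf
        have h7 := h2 e (Finset.mem_insert_self e s) f (Finset.mem_insert_of_mem hf)
          (fun h => he (h ▸ hf))
        unfold Leaves at h7
        rw [cross_iff G v hv, not_not] at h7
        exact h7
      have h8 : (insert e s).filter (fun f => v (e, false) ∈ B f) =
          (insert e s).filter (fun f => v (e, true) ∈ B f) := by
        apply hinj
        · exact Finset.mem_coe.2 (Finset.mem_image_of_mem _ (Finset.mem_univ _))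
        · exact Finset.mem_coe.2 (Finset.mem_image_of_mem _ (Finset.mem_univ _))
        · show ((insert e s).filter (fun f => v (e, false) ∈ B f)).erase e =
            ((insert e s).filter (fun f => v (e, true) ∈ B f)).erase e
          rw [herase, herase, h6]
      apply h4
      have h9 : ∀ w : V, w ∈ B e ↔ e ∈ (insert e s).filter (fun f => w ∈ B f) := by
        intro w
        simp
      rw [h9, h9, h8]
    have hlt : Q.card < P.card := by
      rw [← himg]
      refine lt_of_le_of_ne Finset.card_image_le (fun h => hinj ?_)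
      exact Finset.card_image_iff.1 h
    omega

/-- counting edges between the classes -/
lemma union_card [Nonempty V] (G : MGraph V E) (r : ℕ)
    (hG : ∀ B : Finset V, B.Nonempty → B ≠ univ → 2 * (r + 1) ≤ (bdry G univ B).card)
    (J : Finset E) (B : E → Finset V) (s : Finset E) (hs : s.Nonempty) (hsJ : s ⊆ J)
    (h1 : ∀ e ∈ s, ∀ f ∈ J, Leaves G f (B e) ↔ f = e) :
    r * s.card + 1 ≤ (s.biUnion (fun e => bdry G Jᶜ (B e))).card := by
  classical
  obtain ⟨v, hv⟩ := G.exists_halves
  set κ : V → Finset E := fun w => s.filter (fun e => w ∈ B e) with hκ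
  set P := univ.image κ with hP
  set U := s.biUnion (fun e => bdry G Jᶜ (B e)) with hU
  have hcl : s.card + 1 ≤ P.card := classes_card G B s (fun e he => (h1 e he e (hsJ he)).2 rfl)
    (fun e he f hf hef h => hef ((h1 f hf e (hsJ he)).1 h))
  have hcross : ∀ g, κ (v (g, false)) ≠ κ (v (g, true)) → g ∈ s ∪ U := by
    intro g hg
    by_contra hcon
    apply hg
    apply Finset.filter_congr
    intro e he
    by_contra h3
    apply hcon
    have h4 : Leaves G g (B e) := by
      unfold Leaves
      rw [cross_iff G v hv]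
      exact h3
    by_cases h5 : g ∈ J
    · have h6 := (h1 e he g h5).1 h4
      rw [h6]
      exact Finset.mem_union_left _ he
    · apply Finset.mem_union_right
      rw [hU, Finset.mem_biUnion]
      refine ⟨e, he, ?_⟩
      unfold bdry
      rw [Finset.mem_filter]
      exact ⟨by simpa using h5, h4⟩
  have hbd : ∀ Q ∈ P, 2 * (r + 1) ≤ (bdry G univ (univ.filter (fun w => κ w = Q))).card := by
    intro Q hQ
    obtain ⟨w, _, rfl⟩ := Finset.mem_image.1 hQ
    apply hG
    · exact ⟨w, by simp⟩
    · intro h3
      have h4 : P.card ≤ 1 := by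
        rw [Finset.card_le_one]
        intro Q1 hQ1 Q2 hQ2
        obtain ⟨w1, _, rfl⟩ := Finset.mem_image.1 hQ1
        obtain ⟨w2, _, rfl⟩ := Finset.mem_image.1 hQ2
        have h5 : w1 ∈ univ.filter (fun w' => κ w' = κ w) := by rw [h3]; exact Finset.mem_univ _
        have h6 : w2 ∈ univ.filter (fun w' => κ w' = κ w) := by rw [h3]; exact Finset.mem_univ _
        rw [(Finset.mem_filter.1 h5).2, (Finset.mem_filter.1 h6).2]
      have h5 : 0 < s.card := Finset.card_pos.2 hs
      omega
  have hsum : ∑ Q ∈ P, (bdry G univ (univ.filter (fun w => κ w = Q))).card ≤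
      2 * (s ∪ U).card := by
    have h3 : ∀ Q, (bdry G univ (univ.filter (fun w => κ w = Q))).card =
        ∑ g : E, if ¬ (κ (v (g, false)) = Q ↔ κ (v (g, true)) = Q) then 1 else 0 := by
      intro Q
      unfold bdry
      rw [Finset.card_filter]
      apply Finset.sum_congr rfl
      intro g _
      refine if_congr ?_ rfl rfl
      rw [cross_iff G v hv]
      simp
    rw [Finset.sum_congr rfl (fun Q _ => h3 Q), Finset.sum_comm]
    have h4 : ∀ g ∈ (univ : Finset E), (∑ Q ∈ P,
        if ¬ (κ (v (g, false)) = Q ↔ κ (v (g, true)) = Q) then 1 else 0) ≤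
        if g ∈ s ∪ U then 2 else 0 := by
      intro g _
      by_cases h5 : κ (v (g, false)) = κ (v (g, true))
      · rw [Finset.sum_eq_zero]
        · exact Nat.zero_le _
        · intro Q _
          rw [if_neg]
          rw [not_not, h5]
      · rw [if_pos (hcross g h5), ← Finset.card_filter]
        have h6 : P.filter (fun Q => ¬ (κ (v (g, false)) = Q ↔ κ (v (g, true)) = Q)) ⊆
            {κ (v (g, false)), κ (v (g, true))} := by
          intro Q hQ
          rw [Finset.mem_filter] at hQ
          rw [Finset.mem_insert, Finset.mem_singleton]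
          by_contra h7
          push Not at h7
          exact hQ.2 ⟨fun h => absurd h.symm h7.1, fun h => absurd h.symm h7.2⟩
        exact le_trans (Finset.card_le_card h6) Finset.card_le_two
    refine le_trans (Finset.sum_le_sum h4) ?_
    rw [← Finset.sum_filter, Finset.sum_const, smul_eq_mul, Finset.filter_univ_mem, mul_comm]
  have h7 : P.card * (2 * (r + 1)) ≤
      ∑ Q ∈ P, (bdry G univ (univ.filter (fun w => κ w = Q))).card := by
    have := Finset.card_nsmul_le_sum P
      (fun Q => (bdry G univ (univ.filter (fun w => κ w = Q))).card) (2 * (r + 1)) hbd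
    rwa [smul_eq_mul] at this
  have h8 := Finset.card_union_le s U
  have h9 : (s.card + 1) * (2 * (r + 1)) ≤ P.card * (2 * (r + 1)) := Nat.mul_le_mul_right _ hcl
  nlinarith


/-- the block: `K` connected and spanning, `t = r + 1` on `K` and `1 ≤ t ≤ r + 1` elsewhere, in a
graph all of whose cuts have at least `2 (r + 1)` edges -/
theorem block_heavy (G : MGraph V E) (r : ℕ)
    (hG : ∀ B : Finset V, B.Nonempty → B ≠ univ → 2 * (r + 1) ≤ (bdry G univ B).card)
    (K : Finset E) (hK : ∀ B : Finset V, B.Nonempty → B ≠ univ → ∃ e ∈ K, Leaves G e B)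
    (t : E → ℕ) (ht1 : ∀ e, 1 ≤ t e) (ht2 : ∀ e, t e ≤ r + 1) (htK : ∀ e ∈ K, t e = r + 1) :
    InIntCone G (fun e => 2 * t e) := by
  classical
  -- the edges of `K` which are alone in a cut
  set s : Finset E := K.filter (fun e => ∃ B : Finset V, ∀ f ∈ K, Leaves G f B ↔ f = e) with hs
  have hB : ∀ e, ∃ B : Finset V, e ∈ s → ∀ f ∈ K, Leaves G f B ↔ f = e := by
    intro e
    by_cases he : e ∈ s
    · obtain ⟨B, hB⟩ := (Finset.mem_filter.1 he).2
      exact ⟨B, fun _ => hB⟩
    · exact ⟨∅, fun h => absurd h he⟩
  choose B hB using hB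
  have hne : ∀ e ∈ s, Nonempty V := by
    intro e he
    obtain ⟨⟨x, _, _⟩, _⟩ := (hB e he e (Finset.mem_filter.1 he).1).2 rfl
    exact ⟨x⟩
  obtain ⟨c, hc⟩ := rainbow (fun e : {e // e ∈ s} => bdry G Kᶜ (B e.1)) r (by
    intro u hu
    obtain ⟨e0, he0⟩ := hu
    have := hne e0.1 e0.2
    have h1 := union_card G r hG K B (u.map (Function.Embedding.subtype _))
      (Finset.map_nonempty.2 ⟨e0, he0⟩) (by
        intro e he
        obtain ⟨e', _, rfl⟩ := Finset.mem_map.1 he
        exact (Finset.mem_filter.1 e'.2).1) (by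
        intro e he
        obtain ⟨e', _, rfl⟩ := Finset.mem_map.1 he
        exact hB e'.1 e'.2)
    rw [Finset.card_map] at h1
    refine le_trans h1 (Finset.card_le_card ?_)
    intro a ha
    obtain ⟨e, he, hae⟩ := Finset.mem_biUnion.1 ha
    obtain ⟨e', he', rfl⟩ := Finset.mem_map.1 he
    exact Finset.mem_biUnion.2 ⟨e', he', hae⟩)
  have hS : ∀ e, ∃ S : Finset (Fin (r + 1)), {c e} ⊆ S ∧ S.card = t e := by
    intro e
    obtain ⟨S, h1, _, h3⟩ := Finset.exists_subsuperset_card_eq
      (Finset.subset_univ ({c e} : Finset (Fin (r + 1)))) (n := t e)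
      (by rw [Finset.card_singleton]; exact ht1 e)
      (by rw [Finset.card_univ, Fintype.card_fin]; exact ht2 e)
    exact ⟨S, h1, h3⟩
  choose S hS1 hS2 using hS
  have hSK : ∀ e ∈ K, S e = univ := by
    intro e he
    apply Finset.eq_univ_of_card
    rw [hS2 e, htK e he, Fintype.card_fin]
  -- the bridgeless sets
  have hbr : ∀ b : Fin (r + 1), ∀ X : Finset V,
      (bdry G (univ.filter (fun e => b ∈ S e)) X).card ≠ 1 := by
    intro b X hX
    obtain ⟨e, he⟩ := Finset.card_eq_one.1 hX
    have h1 : ∀ f, b ∈ S f ∧ Leaves G f X ↔ f = e := by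
      intro f
      have h2 : f ∈ bdry G (univ.filter (fun e => b ∈ S e)) X ↔ f = e := by
        rw [he, Finset.mem_singleton]
      rw [← h2]
      unfold bdry
      rw [Finset.mem_filter, Finset.mem_filter]
      simp only [Finset.mem_univ, true_and]
      exact Iff.rfl
    have h3 := proper_of_leaves G e X ((h1 e).2 rfl).2
    obtain ⟨f, hf, hfl⟩ := hK X h3.1 h3.2
    have h4 : f = e := (h1 f).1 ⟨by rw [hSK f hf]; exact Finset.mem_univ _, hfl⟩
    subst h4
    have h5 : ∀ g ∈ K, Leaves G g X ↔ g = f := fun g hg =>
      ⟨fun h => (h1 g).1 ⟨by rw [hSK g hg]; exact Finset.mem_univ _, h⟩,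
        fun h => by rw [h]; exact hfl⟩
    have h6 : f ∈ s := Finset.mem_filter.2 ⟨hf, X, h5⟩
    obtain ⟨a, ha, hca⟩ := hc ⟨f, h6⟩ b
    have ha2 := Finset.mem_filter.1 ha
    have haK : a ∉ K := by simpa using ha2.1
    obtain ⟨v, hv⟩ := G.exists_halves
    have hsame : ∀ g, Leaves G g X ↔ Leaves G g (B f) := by
      have h9 : ∀ g ∈ K, (if v (g, false) ∈ X then (1 : F2) else 0) +
          (if v (g, false) ∈ B f then 1 else 0) + ((if v (g, true) ∈ X then (1 : F2) else 0) +
          (if v (g, true) ∈ B f then 1 else 0)) = 0 := by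
        intro g hg
        have h10 : Leaves G g X ↔ Leaves G g (B f) := (h5 g hg).trans (hB f h6 g hg).symm
        unfold Leaves at h10
        rw [cross_iff G v hv, cross_iff G v hv] at h10
        by_cases p1 : v (g, false) ∈ X <;> by_cases p2 : v (g, true) ∈ X <;>
          by_cases p3 : v (g, false) ∈ B f <;> by_cases p4 : v (g, true) ∈ B f <;>
          simp [p1, p2, p3, p4] at h10 ⊢ <;> decide
      intro g
      have h11 := const_of_conn G v hv K hK (fun w => (if w ∈ X then (1 : F2) else 0) +
        (if w ∈ B f then 1 else 0)) h9 g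
      unfold Leaves
      rw [cross_iff G v hv, cross_iff G v hv]
      by_cases p1 : v (g, false) ∈ X <;> by_cases p2 : v (g, true) ∈ X <;>
        by_cases p3 : v (g, false) ∈ B f <;> by_cases p4 : v (g, true) ∈ B f <;>
        simp [p1, p2, p3, p4] at h11 ⊢ <;> exact absurd h11 (by decide)
    have h12 : Leaves G a X := (hsame a).2 ha2.2
    have h13 := (h1 a).1 ⟨by
      apply hS1 a
      rw [Finset.mem_singleton]
      exact hca.symm, h12⟩
    exact haK (h13 ▸ hf)
  have hsum := intCone_sum G (univ : Finset (Fin (r + 1)))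
    (fun b e => if e ∈ univ.filter (fun e => b ∈ S e) then 2 else 0)
    (fun b _ => cover_bridgeless G _ (hbr b))
  have h14 : (fun e => ∑ b : Fin (r + 1), if e ∈ univ.filter (fun e => b ∈ S e) then 2 else 0) =
      (fun e => 2 * t e) := by
    ext e
    simp only [Finset.mem_filter, Finset.mem_univ, true_and]
    rw [← hS2 e, Finset.sum_ite_mem, Finset.univ_inter, Finset.sum_const, smul_eq_mul, mul_comm]
  rw [h14] at hsum
  exact hsum

/-- even weights of ratio `r` whose maximum is attained on a connected spanning set -/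
theorem heavy_tree (G : MGraph V E) (r : ℕ)
    (hG : ∀ B : Finset V, B.Nonempty → B ≠ univ → 2 * r ≤ (bdry G univ B).card)
    (K : Finset E) (hK : ∀ B : Finset V, B.Nonempty → B ≠ univ → ∃ e ∈ K, Leaves G e B)
    (t : E → ℕ) (h : ∀ e f, t e ≤ r * t f) (hmax : ∀ e ∈ K, ∀ f, t f ≤ t e) :
    InIntCone G (fun e => 2 * t e) := by
  classical
  by_cases hE : Nonempty E
  · obtain ⟨e0, -, hmin⟩ := Finset.exists_min_image (univ : Finset E) t
      ⟨hE.some, Finset.mem_univ _⟩
    obtain ⟨e1, -, hM⟩ := Finset.exists_max_image (univ : Finset E) t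
      ⟨hE.some, Finset.mem_univ _⟩
    rcases Nat.eq_zero_or_pos (t e0) with h0 | h0
    · refine ⟨0, by simp, fun e => ?_⟩
      have := h e e0
      rw [h0] at this
      simp at this ⊢
      exact this
    obtain ⟨r', rfl⟩ : ∃ r', r = r' + 1 := by
      rcases Nat.eq_zero_or_pos r with h3 | h3
      · exfalso
        have := h e0 e0
        rw [h3] at this
        omega
      · exact ⟨r - 1, by omega⟩
    have hb : ∀ j ∈ Finset.range (t e0), InIntCone G
        (fun e => 2 * (1 + min r' ((t e - t e0) - r' * j))) := by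
      intro j _
      refine block_heavy G (min r' ((t e1 - t e0) - r' * j)) ?_ K hK _ ?_ ?_ ?_
      · intro B h1 h2
        have := hG B h1 h2
        omega
      · intro e; omega
      · intro e
        have := hM e (Finset.mem_univ _)
        omega
      · intro e he
        have h1 := hM e (Finset.mem_univ _)
        have h2 := hmax e he e1
        have h3 : t e = t e1 := by omega
        rw [h3]
        omega
    have h5 := intCone_sum G (Finset.range (t e0)) _ hb
    have h6 : (fun e => ∑ j ∈ Finset.range (t e0), 2 * (1 + min r' ((t e - t e0) - r' * j))) =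
        (fun e => 2 * t e) := by
      ext e
      rw [← Finset.mul_sum, Finset.sum_add_distrib, sum_min, Finset.sum_const, Finset.card_range,
        smul_eq_mul, mul_one]
      have h7 := hmin e (Finset.mem_univ _)
      have h8 := h e e0
      rw [Nat.add_mul, one_mul] at h8
      omega
    rw [h6] at h5
    exact h5
  · exact ⟨0, by simp, fun e => absurd ⟨e⟩ hE⟩

end Pool.Agent.H44.RT
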