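import Pool.Agent.H44.RT.Trails

set_option autoImplicit false
set_option linter.unusedSectionVars false

/-!
Closed trails, not necessarily spanning: weights between the number of the trails containing an edge
and its complement.
-/

namespace Pool.Agent.H44.RT

open Finset
open Pool.Agent.Helper879.ECD (F2 IsFlow inc cn f2_add_self f2_cases)
open Pool.Agent.H126R2.CDC (MGraph isFl_iff)
open Pool.Agent.H126R2.NC (InCone InLat InIntCone cone_lat_of_intCone cover_minus)
open Pool.Agent.TH399.CC (intCone_add intCone_sum isEven_of_isFlow exists_flow_on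
  exists_flow8_minus isFlow_add isFlow_smul odd_part)

variable {V E : Type} [Fintype V] [DecidableEq V] [Fintype E] [DecidableEq E]

/-- every end-vertex of `e` is an end-vertex of an edge of `D` -/
def Through (G : MGraph V E) (D : Finset E) (e : E) : Prop := ∀ x ∈ G.ends e, ∃ f ∈ D, x ∈ G.ends f

/-- any two edges of `D` are joined by a chain of edges of `D` -/
def Chained (G : MGraph V E) (D : Finset E) : Prop :=
  ∀ e ∈ D, ∀ f ∈ D,
    Relation.ReflTransGen (fun a b => b ∈ D ∧ ∃ v, v ∈ G.ends a ∧ v ∈ G.ends b) e f

lemma eq_of_add_zero {a b : F2} (h : a + b = 0) : a = b := by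
  revert h; revert a b; decide

lemma const_on_edge (G : MGraph V E) (v : E × Bool → V)
    (hv : ∀ e, G.ends e = s(v (e, false), v (e, true))) (c : V → F2) (e : E)
    (hc : c (v (e, false)) + c (v (e, true)) = 0) (x y : V) (hx : x ∈ G.ends e)
    (hy : y ∈ G.ends e) : c x = c y := by
  rw [hv e, Sym2.mem_iff] at hx hy
  have h := eq_of_add_zero hc
  rcases hx with rfl | rfl <;> rcases hy with rfl | rfl
  · rfl
  · exact h
  · exact h.symm
  · rfl

lemma const_of_chained (G : MGraph V E) (v : E × Bool → V)
    (hv : ∀ e, G.ends e = s(v (e, false), v (e, true))) (D : Finset E) (hD : Chained G D)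
    (c : V → F2) (hc : ∀ e ∈ D, c (v (e, false)) + c (v (e, true)) = 0) (f g : E) (hf : f ∈ D)
    (hg : g ∈ D) (x y : V) (hx : x ∈ G.ends f) (hy : y ∈ G.ends g) : c x = c y := by
  have key : ∀ g, Relation.ReflTransGen
      (fun a b => b ∈ D ∧ ∃ v, v ∈ G.ends a ∧ v ∈ G.ends b) f g → ∀ y ∈ G.ends g, c x = c y := by
    intro g h
    induction h with
    | refl => exact fun y hy => const_on_edge G v hv c f (hc f hf) x y hx hy
    | tail _ h ih =>
      obtain ⟨h1, w, h2, h3⟩ := h
      intro y hy
      exact (ih w h2).trans (const_on_edge G v hv c _ (hc _ h1) w y h3 hy)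
  exact key g (hD f hf g hg) y hy

/-- a flow with prescribed values off a connected edge set, zero or one on the edges with both ends
on it and zero elsewhere -/
lemma flow_off_chained (G : MGraph V E) (v : E × Bool → V)
    (hv : ∀ e, G.ends e = s(v (e, false), v (e, true))) (D : Finset E) (hD : Chained G D)
    (F : Finset E) (hF : ∀ e ∈ F, Through G D e) :
    ∃ Z : E → F2, IsFlow (fun e => v (e, false)) (fun e => v (e, true)) Z ∧
      ∀ e, e ∉ D → Z e = if e ∈ F then 1 else 0 := by
  obtain ⟨Z, h1, h2⟩ := exists_flow_on (fun e => v (e, false)) (fun e => v (e, true)) Dᶜ F (by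
    intro c hc
    apply Finset.sum_eq_zero
    intro e he
    have h3 := hF e he
    obtain ⟨f, hf, hfx⟩ := h3 (v (e, false)) (by rw [hv e]; exact Sym2.mem_mk_left _ _)
    obtain ⟨g, hg, hgx⟩ := h3 (v (e, true)) (by rw [hv e]; exact Sym2.mem_mk_right _ _)
    have h4 := const_of_chained G v hv D hD c (fun e he => hc e (by simp [he])) f g hf hg _ _
      hfx hgx
    rw [h4]
    exact f2_add_self _)
  exact ⟨Z, h1, fun e he => h2 e (by simp [he])⟩

/-- the parities of a weighting in the lattice form a flow -/
lemma flow_of_lat (G : MGraph V E) (v : E × Bool → V)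
    (hv : ∀ e, G.ends e = s(v (e, false), v (e, true))) (p : E → ℕ) (hp : InLat G p) :
    IsFlow (fun e => v (e, false)) (fun e => v (e, true)) (fun e => ((p e : ℕ) : F2)) := by
  have h1 : ∀ x : E → ℤ, x ∈ AddSubgroup.closure
      {x : E → ℤ | ∃ C, G.IsCircuit C ∧ x = fun e => if e ∈ C then 1 else 0} →
      IsFlow (fun e => v (e, false)) (fun e => v (e, true)) (fun e => ((x e : ℤ) : F2)) := by
    intro x hx
    induction hx using AddSubgroup.closure_induction with
    | mem x hx =>
      obtain ⟨C, hC, rfl⟩ := hx
      have h2 := (isFl_iff v _).1 ((G.isEven_iff v hv C).1 hC.isEven)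
      have h3 : (fun e => (((if e ∈ C then (1 : ℤ) else 0) : ℤ) : F2)) =
          (fun e => if e ∈ C then (1 : F2) else 0) := by
        ext e
        by_cases h : e ∈ C <;> simp [h]
      show IsFlow _ _ (fun e => (((if e ∈ C then (1 : ℤ) else 0) : ℤ) : F2))
      rw [h3]
      exact h2
    | zero => intro c; simp
    | add x y _ _ hx hy =>
      have h2 := isFlow_add hx hy
      have h3 : (fun e => (((x + y) e : ℤ) : F2)) = (fun e => ((x e : ℤ) : F2) + ((y e : ℤ) : F2)) := by
        ext e; simp
      rw [h3]
      exact h2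
    | neg x _ hx =>
      have h3 : (fun e => (((-x) e : ℤ) : F2)) = (fun e => ((x e : ℤ) : F2)) := by
        ext e
        rw [Pi.neg_apply, Int.cast_neg]
        rcases f2_cases ((x e : ℤ) : F2) with h | h
        · rw [h, neg_zero]
        · rw [h]; decide
      rw [h3]
      exact hx
  have h2 := h1 _ hp
  have h3 : (fun e => (((p e : ℕ) : ℤ) : F2)) = (fun e => ((p e : ℕ) : F2)) := by
    ext e; simp
  rw [← h3]
  exact h2

open Classical in
/-- The core: even sets `D i`, `R i e` says that `e` can be controlled off `D i`. -/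
theorem core (G : MGraph V E) (v : E × Bool → V)
    (hv : ∀ e, G.ends e = s(v (e, false), v (e, true))) {ι : Type} [Fintype ι] [DecidableEq ι]
    (D : ι → Finset E) (hD : ∀ i, G.IsEven (D i)) (R : ι → E → Prop)
    (hself : ∀ i e, e ∈ D i → R i e)
    (hfl : ∀ i, ∀ F : Finset E, (∀ e ∈ F, R i e) →
      ∃ Z : E → F2, IsFlow (fun e => v (e, false)) (fun e => v (e, true)) Z ∧
        ∀ e, e ∉ D i → Z e = if e ∈ F then 1 else 0)
    (p : E → ℕ)
    (hp : IsFlow (fun e => v (e, false)) (fun e => v (e, true)) (fun e => ((p e : ℕ) : F2)))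
    (h1 : ∀ e, (univ.filter (fun i => e ∈ D i)).card ≤ p e)
    (h2 : ∀ e, p e + (univ.filter (fun i => e ∈ D i)).card ≤
      2 * (univ.filter (fun i => R i e)).card + 1) :
    InIntCone G p := by
  set x : ι → E → F2 := fun i e => if e ∈ D i then 1 else 0 with hx
  have hxf : ∀ i, IsFlow (fun e => v (e, false)) (fun e => v (e, true)) (x i) := fun i =>
    (isFl_iff v _).1 ((G.isEven_iff v hv (D i)).1 (hD i))
  set d : E → ℕ := fun e => (univ.filter (fun i => e ∈ D i)).card with hd
  set s : E → ℕ := fun e => (univ.filter (fun i => R i e)).card with hs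
  have hcomp : ∀ e, (univ.filter (fun i => R i e ∧ ¬ e ∈ D i)).card = s e - d e := by
    intro e
    have h3 := Finset.card_filter_add_card_filter_not
      (s := univ.filter (fun i => R i e)) (fun i => e ∈ D i)
    rw [Finset.filter_filter, Finset.filter_filter] at h3
    have h4 : univ.filter (fun i => R i e ∧ e ∈ D i) =
        univ.filter (fun i => e ∈ D i) := by
      apply Finset.filter_congr
      intro i _
      exact ⟨fun h => h.2, fun h => ⟨hself i e h, h⟩⟩
    rw [h4] at h3
    simp only [hd, hs]
    omega
  have hS : ∀ e, ∃ S : Finset ι, S ⊆ univ.filter (fun i => R i e ∧ ¬ e ∈ D i) ∧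
      S.card = (p e - d e) / 2 := by
    intro e
    apply Finset.exists_subset_card_eq
    rw [hcomp]
    have h3 : p e + d e ≤ 2 * s e + 1 := h2 e
    omega
  choose S hS1 hS2 using hS
  choose Z hZ1 hZ2 using fun i => hfl i
    (univ.filter (fun e => i ∈ S e)) (fun e he =>
      (Finset.mem_filter.1 (hS1 e (Finset.mem_filter.1 he).2)).2.1)
  have hw : IsFlow (fun e => v (e, false)) (fun e => v (e, true))
      (fun e => ∑ i, x i e + ((p e : ℕ) : F2)) :=
    isFlow_add (isFlow_sum _ _ x hxf) hp
  have hwd : ∀ e, ∑ i, x i e + ((p e : ℕ) : F2) = ((d e + p e : ℕ) : F2) := by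
    intro e
    simp only [hx, hd]
    rw [Finset.sum_boole]
    push_cast
    rfl
  have hA := intCone_of_flows G v hv (ι := ι × Bool)
    (fun q e => Z q.1 e + (if q.2 then x q.1 e else 0)) (by
      rintro ⟨i, b⟩
      cases b
      · have h3 : (fun e => Z i e + (if (false : Bool) = true then x i e else 0)) = Z i := by
          ext e; simp
        show IsFlow _ _ (fun e => Z i e + (if (false : Bool) = true then x i e else 0))
        rw [h3]
        exact hZ1 i
      · have h3 : (fun e => Z i e + (if (true : Bool) = true then x i e else 0)) =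
            (fun e => Z i e + x i e) := by
          ext e; simp
        show IsFlow _ _ (fun e => Z i e + (if (true : Bool) = true then x i e else 0))
        rw [h3]
        exact isFlow_add (hZ1 i) (hxf i))
  have hB := intCone_of_flows G v hv (ι := Unit) (fun _ e => ∑ i, x i e + ((p e : ℕ) : F2))
    (fun _ => hw)
  refine intCone_add G hA hB ?_
  intro e
  have h3 : (univ.filter (fun _ : Unit => ∑ i, x i e + ((p e : ℕ) : F2) = 1)).card =
      (d e + p e) % 2 := by
    rw [hwd e, Finset.card_filter]
    simp only [Finset.univ_unique, Finset.sum_singleton]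
    exact natCast_f2 (d e + p e)
  rw [h3, Finset.card_filter, Fintype.sum_prod_type]
  have h4 : ∀ i ∈ (univ : Finset ι),
      (∑ b : Bool, if Z i e + (if b then x i e else 0) = 1 then 1 else 0) =
      (if e ∈ D i then 1 else 0) + 2 * (if i ∈ S e then 1 else 0) := by
    intro i _
    rw [pair_count']
    by_cases h5 : e ∈ D i
    · have h6 : i ∉ S e := fun h => (Finset.mem_filter.1 (hS1 e h)).2.2 h5
      simp [hx, h5, h6]
    · have h7 : Z i e = if i ∈ S e then 1 else 0 := by
        rw [hZ2 i e h5]
        simp
      rw [h7]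
      by_cases h6 : i ∈ S e <;> simp [hx, h5, h6]
  rw [Finset.sum_congr rfl h4, Finset.sum_add_distrib, ← Finset.mul_sum, ← Finset.card_filter]
  have h5 : ∑ i : ι, (if i ∈ S e then 1 else 0) = (S e).card := by
    rw [Finset.sum_ite_mem, Finset.univ_inter, Finset.sum_const, smul_eq_mul, mul_one]
  rw [h5, hS2 e]
  show p e = d e + 2 * ((p e - d e) / 2) + (d e + p e) % 2
  have h6 : d e ≤ p e := h1 e
  omega

open Classical in
/-- **Sandwich.** Closed trails `D i`, `d e` the number of the `D i` containing `e`, `s e` the number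
of the `D i` which pass through the ends of `e`; `p` in the lattice and
`d e ≤ p e ≤ 2 s e - d e + 1`. -/
theorem sandwich (G : MGraph V E) {ι : Type} [Fintype ι] [DecidableEq ι]
    (D : ι → Finset E) (hD : ∀ i, G.IsEven (D i)) (hch : ∀ i, Chained G (D i))
    (p : E → ℕ) (hp : InLat G p)
    (h1 : ∀ e, (univ.filter (fun i => e ∈ D i)).card ≤ p e)
    (h2 : ∀ e, p e + (univ.filter (fun i => e ∈ D i)).card ≤
      2 * (univ.filter (fun i => Through G (D i) e)).card + 1) :
    InIntCone G p := by
  obtain ⟨v, hv⟩ := G.exists_halves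
  exact core G v hv D hD (fun i e => Through G (D i) e) (fun i e he x hx => ⟨e, he, hx⟩)
    (fun i F hF => flow_off_chained G v hv (D i) (hch i) F hF) p (flow_of_lat G v hv p hp) h1 h2

/-- The spanning version, for even weights. -/
theorem sandwich_span (G : MGraph V E) {ι : Type} [Fintype ι] [DecidableEq ι]
    (D : ι → Finset E) (hD : ∀ i, G.IsEven (D i))
    (hin : ∀ i, ∀ B : Finset V, B.Nonempty → B ≠ univ → ∃ e ∈ D i, Leaves G e B)
    (t : E → ℕ)
    (h1 : ∀ e, (univ.filter (fun i => e ∈ D i)).card ≤ 2 * t e)
    (h2 : ∀ e, 2 * t e + (univ.filter (fun i => e ∈ D i)).card ≤ 2 * Fintype.card ι + 1) :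
    InIntCone G (fun e => 2 * t e) := by
  classical
  obtain ⟨v, hv⟩ := G.exists_halves
  refine core G v hv D hD (fun _ _ => True) (fun _ _ _ => trivial)
    (fun i F _ => flow_off G v hv (D i) (hin i) F) _ ?_ (fun e => ?_) (fun e => ?_)
  · intro c
    apply Finset.sum_eq_zero
    intro e _
    have h3 : ((2 * t e : ℕ) : F2) = 0 := (ZMod.natCast_eq_zero_iff_even).2 (even_two_mul _)
    show ((2 * t e : ℕ) : F2) * _ = 0
    rw [h3, zero_mul]
  · convert h1 e
  rw [Finset.filter_true, Finset.card_univ]
  convert h2 e

/-- two on a bridgeless edge set and zero elsewhere -/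
lemma cover_bridgeless (G : MGraph V E) (H : Finset E)
    (hH : ∀ B : Finset V, (bdry G H B).card ≠ 1) :
    InIntCone G (fun e => if e ∈ H then 2 else 0) := by
  classical
  obtain ⟨v, hv⟩ := G.exists_halves
  obtain ⟨S, hS1, hS2⟩ := cover_minus G v hv Hᶜ (by
    intro B
    have h1 : (univ \ Hᶜ : Finset E) = H := by ext e; simp
    rw [h1, ← bdry_card G v hv]
    exact hH B)
  refine ⟨S, hS1, fun e => ?_⟩
  rw [hS2 e]
  by_cases h : e ∈ H <;> simp [h]

open Classical in
/-- closed trails and bridgeless edge sets -/
theorem sandwich_mixed (G : MGraph V E) {ι κ : Type} [Fintype ι] [DecidableEq ι] [Fintype κ]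
    [DecidableEq κ] (D : ι → Finset E) (hD : ∀ i, G.IsEven (D i)) (hch : ∀ i, Chained G (D i))
    (H : κ → Finset E) (hH : ∀ j, ∀ B : Finset V, (bdry G (H j) B).card ≠ 1)
    (p : E → ℕ) (hp : InLat G p)
    (h1 : ∀ e, (univ.filter (fun i => e ∈ D i)).card +
      2 * (univ.filter (fun j => e ∈ H j)).card ≤ p e)
    (h2 : ∀ e, p e + (univ.filter (fun i => e ∈ D i)).card ≤
      2 * (univ.filter (fun i => Through G (D i) e)).card +
        2 * (univ.filter (fun j => e ∈ H j)).card + 1) :
    InIntCone G p := by
  have hHc : InIntCone G (fun e => 2 * (univ.filter (fun j => e ∈ H j)).card) := by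
    have h3 := intCone_sum G (univ : Finset κ) (fun j e => if e ∈ H j then 2 else 0)
      (fun j _ => cover_bridgeless G (H j) (hH j))
    have h4 : (fun e => ∑ j, (if e ∈ H j then 2 else 0)) =
        (fun e => 2 * (univ.filter (fun j => e ∈ H j)).card) := by
      ext e
      rw [Finset.card_filter, Finset.mul_sum]
      apply Finset.sum_congr rfl
      intro j _
      split_ifs <;> rfl
    rw [h4] at h3
    exact h3
  have hlat2 := (cone_lat_of_intCone G _ hHc).2
  have hlat : InLat G (fun e => p e - 2 * (univ.filter (fun j => e ∈ H j)).card) := by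
    have h5 := AddSubgroup.sub_mem _ hp hlat2
    have h6 : ((fun e => (p e : ℤ)) -
        fun e => ((2 * (univ.filter (fun j => e ∈ H j)).card : ℕ) : ℤ)) =
        (fun e => ((p e - 2 * (univ.filter (fun j => e ∈ H j)).card : ℕ) : ℤ)) := by
      ext e
      have := h1 e
      rw [Pi.sub_apply, Nat.cast_sub (by omega)]
    rw [h6] at h5
    exact h5
  have h7 := sandwich G D hD hch _ hlat (fun e => by
    have := h1 e
    omega) (fun e => by
    have := h1 e
    have := h2 e
    omega)
  refine intCone_add G h7 hHc ?_
  intro e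
  have := h1 e
  show p e = p e - 2 * (univ.filter (fun j => e ∈ H j)).card +
    2 * (univ.filter (fun j => e ∈ H j)).card
  omega

/-- closed trails and disjoint connected sets: the block -/
theorem block_mixed (G : MGraph V E) {ι : Type} [Fintype ι] [DecidableEq ι]
    (D : ι → Finset E) (hD : ∀ i, G.IsEven (D i))
    (hin : ∀ i, ∀ B : Finset V, B.Nonempty → B ≠ univ → ∃ e ∈ D i, Leaves G e B)
    (hN : 1 ≤ Fintype.card ι) (T : ℕ → Finset E) :
    ∀ k : ℕ, (∀ j < k, ∀ B : Finset V, B.Nonempty → B ≠ univ → ∃ e ∈ T j, Leaves G e B) →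
      (∀ j < k, ∀ i, Disjoint (T j) (D i)) → (∀ j < k, ∀ l < k, j ≠ l → Disjoint (T j) (T l)) →
      ∀ t : E → ℕ, (∀ j < k, ∀ e ∈ T j, 1 ≤ t e ∧ t e + 1 ≤ Fintype.card ι + k) →
        (∀ e, (univ.filter (fun i => e ∈ D i)).card ≤ 2 * t e ∧
          2 * t e + (univ.filter (fun i => e ∈ D i)).card ≤ 2 * Fintype.card ι + 2 * k + 1) →
        InIntCone G (fun e => 2 * t e) := by
  intro k
  induction k with
  | zero =>
    intro _ _ _ t _ ht
    exact sandwich_span G D hD hin t (fun e => (ht e).1) (fun e => by
      have := (ht e).2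
      omega)
  | succ k ih =>
    intro hT hTD hTT t hts htd
    obtain ⟨v, hv⟩ := G.exists_halves
    -- the edges which must be lowered
    obtain ⟨Z, hZ1, hZ2⟩ := flow_off G v hv (T k) (hT k (by omega))
      (univ.filter (fun e => (∃ j < k, e ∈ T j ∧ t e + 1 = Fintype.card ι + (k + 1)) ∨
        ((∀ j < k, e ∉ T j) ∧ 2 * Fintype.card ι + 2 * k + 1 <
          2 * t e + (univ.filter (fun i => e ∈ D i)).card)))
    have hdT : ∀ j < k + 1, ∀ e ∈ T j, (univ.filter (fun i => e ∈ D i)).card = 0 := by
      intro j hj e he
      rw [Finset.card_eq_zero, Finset.filter_eq_empty_iff]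
      intro i _ hi
      exact Finset.disjoint_left.1 (hTD j hj i) he hi
    have hdN : ∀ e, (univ.filter (fun i => e ∈ D i)).card ≤ Fintype.card ι := by
      intro e
      exact Finset.card_le_univ _
    have hZe := isEven_of_isFlow G v hv Z hZ1
    -- two times the even set
    obtain ⟨S, hS1, hS2⟩ := G.decompose _ _ rfl hZe
    have hZc : InIntCone G (fun e => if Z e = 1 then 1 else 0) := by
      refine ⟨S, hS1, fun e => ?_⟩
      rw [hS2 e]
      simp
    have hval : ∀ e, e ∉ T k → Z e = if ((∃ j < k, e ∈ T j ∧ t e + 1 = Fintype.card ι + (k + 1)) ∨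
        ((∀ j < k, e ∉ T j) ∧ 2 * Fintype.card ι + 2 * k + 1 <
          2 * t e + (univ.filter (fun i => e ∈ D i)).card)) then 1 else 0 := by
      intro e he
      rw [hZ2 e he]
      simp only [Finset.mem_filter, Finset.mem_univ, true_and]
    have hrec := ih (fun j hj => hT j (by omega)) (fun j hj => hTD j (by omega))
      (fun j hj l hl => hTT j (by omega) l (by omega)) (fun e => t e - if Z e = 1 then 1 else 0)
      (by
        intro j hj e he
        have h1 := hts j (by omega) e he
        have h2 : e ∉ T k := fun h =>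
          Finset.disjoint_left.1 (hTT j (by omega) k (by omega) (by omega)) he h
        have h3 := hval e h2
        have h4 : ¬ ∀ j < k, e ∉ T j := fun h => h j hj he
        by_cases h5 : t e + 1 = Fintype.card ι + (k + 1)
        · have h6 : Z e = 1 := by
            rw [h3, if_pos (Or.inl ⟨j, hj, he, h5⟩)]
          simp only [h6, if_true]
          omega
        · have h6 : Z e = 0 := by
            rw [h3, if_neg]
            rintro (⟨l, _, _, h7⟩ | ⟨h7, _⟩)
            · exact h5 h7
            · exact h4 h7
          simp only [h6, zero_ne_one, if_false]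
          omega)
      (by
        intro e
        have h1 := htd e
        have hd := hdN e
        by_cases h2 : e ∈ T k
        · have h3 := hdT k (by omega) e h2
          have h4 := hts k (by omega) e h2
          simp only [h3] at h1 ⊢
          split_ifs <;> omega
        · have h3 := hval e h2
          by_cases h4 : ∃ j < k, e ∈ T j
          · obtain ⟨j, hj, he⟩ := h4
            have h5 := hdT j (by omega) e he
            have h6 := hts j (by omega) e he
            by_cases h7 : t e + 1 = Fintype.card ι + (k + 1)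
            · have h8 : Z e = 1 := by
                rw [h3, if_pos (Or.inl ⟨j, hj, he, h7⟩)]
              simp only [h8, if_true, h5]
              omega
            · have h8 : Z e = 0 := by
                rw [h3, if_neg]
                rintro (⟨l, _, _, h9⟩ | ⟨h9, _⟩)
                · exact h7 h9
                · exact h9 j hj he
              simp only [h8, zero_ne_one, if_false, h5]
              omega
          · push Not at h4
            by_cases h7 : 2 * Fintype.card ι + 2 * k + 1 <
                2 * t e + (univ.filter (fun i => e ∈ D i)).card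
            · have h8 : Z e = 1 := by
                rw [h3, if_pos (Or.inr ⟨h4, h7⟩)]
              simp only [h8, if_true]
              omega
            · have h8 : Z e = 0 := by
                rw [h3, if_neg]
                rintro (⟨l, hl, h9, _⟩ | ⟨_, h9⟩)
                · exact h4 l hl h9
                · exact h7 h9
              simp only [h8, zero_ne_one, if_false]
              omega)
    refine intCone_add G (intCone_add G hZc hZc (fun e => rfl)) hrec ?_
    intro e
    have h1 := htd e
    have h2 : Z e = 1 → 1 ≤ t e := by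
      intro h
      by_cases h2 : e ∈ T k
      · exact (hts k (by omega) e h2).1
      · have h3 := hval e h2
        rw [h] at h3
        by_contra h4
        have h5 : t e = 0 := by omega
        rw [if_neg] at h3
        · exact one_ne_zero h3
        · have hd := hdN e
          rintro (⟨l, _, _, h9⟩ | ⟨_, h9⟩)
          · omega
          · omega
    show 2 * t e = ((if Z e = 1 then 1 else 0) + (if Z e = 1 then 1 else 0)) +
      2 * (t e - if Z e = 1 then 1 else 0)
    by_cases h3 : Z e = 1
    · have := h2 h3
      simp only [h3, if_true]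
      omega
    · simp only [h3, if_false]
      omega

/-- `m` spanning closed trails with every edge in at most two of them and `k` disjoint connected
sets: ratio `m + k - 1` -/
theorem mixed_ratio (G : MGraph V E) (m k : ℕ) (hm : 1 ≤ m)
    (D : Fin m → Finset E) (hD : ∀ i, G.IsEven (D i))
    (hin : ∀ i, ∀ B : Finset V, B.Nonempty → B ≠ univ → ∃ e ∈ D i, Leaves G e B)
    (hcap : ∀ e, (univ.filter (fun i => e ∈ D i)).card ≤ 2) (T : ℕ → Finset E)
    (hT : ∀ j < k, ∀ B : Finset V, B.Nonempty → B ≠ univ → ∃ e ∈ T j, Leaves G e B)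
    (hTD : ∀ j < k, ∀ i, Disjoint (T j) (D i))
    (hTT : ∀ j < k, ∀ l < k, j ≠ l → Disjoint (T j) (T l))
    (t : E → ℕ) (h : ∀ e f, t e ≤ (m + k - 1) * t f) : InIntCone G (fun e => 2 * t e) := by
  classical
  by_cases hE : Nonempty E
  · obtain ⟨e0, -, hmin⟩ := Finset.exists_min_image (univ : Finset E) t
      ⟨hE.some, Finset.mem_univ _⟩
    rcases Nat.eq_zero_or_pos (t e0) with h0 | h0
    · refine ⟨0, by simp, fun e => ?_⟩
      have := h e e0
      rw [h0] at this
      simp at this ⊢
      exact this
    obtain ⟨r, hr⟩ : ∃ r, m + k - 1 = r + 1 := by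
      rcases Nat.eq_zero_or_pos (m + k - 1) with h3 | h3
      · exfalso
        have := h e0 e0
        rw [h3] at this
        simp at this
        omega
      · exact ⟨m + k - 1 - 1, by omega⟩
    have hb : ∀ j ∈ Finset.range (t e0), InIntCone G
        (fun e => 2 * (1 + min r ((t e - t e0) - r * j))) := by
      intro j _
      refine block_mixed G D hD hin (by rw [Fintype.card_fin]; exact hm) T k hT hTD hTT _ ?_ ?_
      · intro l _ e _
        rw [Fintype.card_fin]
        omega
      · intro e
        have := hcap e
        rw [Fintype.card_fin]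
        omega
    have h5 := intCone_sum G (Finset.range (t e0)) _ hb
    have h6 : (fun e => ∑ j ∈ Finset.range (t e0), 2 * (1 + min r ((t e - t e0) - r * j))) =
        (fun e => 2 * t e) := by
      ext e
      rw [← Finset.mul_sum, Finset.sum_add_distrib, sum_min, Finset.sum_const, Finset.card_range,
        smul_eq_mul, mul_one]
      have h7 := hmin e (Finset.mem_univ _)
      have h8 := h e e0
      rw [hr, Nat.add_mul, one_mul] at h8
      omega
    rw [h6] at h5
    exact h5
  · exact ⟨0, by simp, fun e => absurd ⟨e⟩ hE⟩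

end Pool.Agent.H44.RT
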