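import Pool.Agent.H44.RT.Main

set_option autoImplicit false
set_option linter.unusedSectionVars false

/-!
A spanning two-edge-connected subgraph with a connected complement: small additive constants.
-/

namespace Pool.Agent.H44.RT

open Finset
open Pool.Agent.Helper879.ECD (F2 IsFlow inc cn f2_add_self f2_cases)
open Pool.Agent.H126R2.CDC (MGraph isFl_iff)
open Pool.Agent.H126R2.NC (InCone InLat InIntCone TC cover_minus f2_ne cr cone_lat_of_intCone)
open Pool.Agent.TH399.CC (intCone_add intCone_sum isEven_of_isFlow exists_flow_on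
  exists_flow8_minus isFlow_add isFlow_smul block odd_part)

variable {V E : Type} [Fintype V] [DecidableEq V] [Fintype E] [DecidableEq E]

lemma proper_of_leaves (G : MGraph V E) (e : E) (B : Finset V) (h : Leaves G e B) :
    B.Nonempty ∧ B ≠ univ := by
  obtain ⟨⟨x, -, hx⟩, y, -, hy⟩ := h
  exact ⟨⟨x, hx⟩, fun h => hy (by rw [h]; exact Finset.mem_univ _)⟩

/-- the cuts of the graph without edges outside `A` -/
lemma hdel (G : MGraph V E) (v : E × Bool → V)
    (hv : ∀ e, G.ends e = s(v (e, false), v (e, true))) (A : Finset E)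
    (hA : ∀ B : Finset V, B.Nonempty → B ≠ univ → 2 ≤ (bdry G A B).card) (X : Finset E)
    (hX : ∀ e ∈ X, e ∉ A) (B : Finset V) :
    cn (fun e => v (e, false)) (fun e => v (e, true)) (univ \ X) B ≠ 1 := by
  intro h1
  rw [← bdry_card G v hv] at h1
  obtain ⟨e, he⟩ := Finset.card_pos.1 (show 0 < (bdry G (univ \ X) B).card by omega)
  have h2 := proper_of_leaves G e B (Finset.mem_filter.1 he).2
  have h3 := hA B h2.1 h2.2
  have h4 : (bdry G A B).card ≤ (bdry G (univ \ X) B).card := by
    apply Finset.card_le_card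
    intro f hf
    unfold bdry at hf ⊢
    rw [Finset.mem_filter] at hf ⊢
    refine ⟨?_, hf.2⟩
    rw [Finset.mem_sdiff]
    exact ⟨Finset.mem_univ _, fun h => hX f h hf.1⟩
  omega

/-- an edge outside `A` is in no two-edge cut -/
lemma htc (G : MGraph V E) (v : E × Bool → V)
    (hv : ∀ e, G.ends e = s(v (e, false), v (e, true))) (A : Finset E)
    (hA : ∀ B : Finset V, B.Nonempty → B ≠ univ → 2 ≤ (bdry G A B).card) (e : E) (he : e ∉ A)
    (f : E) (h : TC (fun e => v (e, false)) (fun e => v (e, true)) e f) : f = e := by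
  by_contra hne
  obtain ⟨z, hz⟩ := h
  set B : Finset V := univ.filter (fun w => z w = 1) with hB
  have hcr : ∀ g, Leaves G g B ↔ (g = e ∨ g = f) := by
    intro g
    unfold Leaves
    rw [cross_iff G v hv]
    have h1 : (¬ (v (g, false) ∈ B ↔ v (g, true) ∈ B)) ↔ z (v (g, false)) + z (v (g, true)) = 1 := by
      simp only [hB, Finset.mem_filter, Finset.mem_univ, true_and]
      exact f2_ne
    rw [h1, hz g]
    by_cases h2 : g = e
    · have h3 : ¬ g = f := fun h3 => hne (h3.symm.trans h2)
      simp [h2, Ne.symm hne]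
    · by_cases h3 : g = f
      · simp [h3, hne]
      · simp [h2, h3]
  have h2 := proper_of_leaves G e B ((hcr e).2 (Or.inl rfl))
  have h3 := hA B h2.1 h2.2
  have h4 : (bdry G A B).card ≤ ({f} : Finset E).card := by
    apply Finset.card_le_card
    intro g hg
    unfold bdry at hg
    rw [Finset.mem_filter] at hg
    rw [Finset.mem_singleton]
    rcases (hcr g).1 hg.2 with h5 | h5
    · exact absurd (h5 ▸ hg.1) he
    · exact h5
  rw [Finset.card_singleton] at h4
  omega

/-- four on `A`, and zero, four or eight elsewhere -/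
lemma blkA (G : MGraph V E) (A : Finset E)
    (hA : ∀ B : Finset V, B.Nonempty → B ≠ univ → 2 ≤ (bdry G A B).card) (s : E → ℕ)
    (hs : ∀ e, s e ≤ 2) :
    InIntCone G (fun e => if e ∈ A then 4 else 4 * s e) := by
  classical
  obtain ⟨v, hv⟩ := G.exists_halves
  obtain ⟨S, hS1, hS2⟩ := block G v hv (univ.filter (fun e => e ∉ A ∧ s e ≠ 1))
    (univ.filter (fun e => e ∉ A ∧ s e = 2)) (by
      intro e he f hef
      have h1 := Finset.mem_filter.1 he
      rw [htc G v hv A hA e h1.2.1 f hef]
      exact he) (by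
      intro e he f hef
      have h1 := Finset.mem_filter.1 he
      rw [htc G v hv A hA e h1.2.1 f hef]
      exact he) (by
      intro X' hX' _ B
      exact hdel G v hv A hA X' (fun e he => (Finset.mem_filter.1 (hX' he)).2.1) B)
  refine ⟨S, hS1, fun e => ?_⟩
  rw [hS2 e]
  simp only [Finset.mem_filter, Finset.mem_univ, true_and]
  have h1 := hs e
  by_cases h : e ∈ A
  · simp [h]
  · have h2 : s e = 0 ∨ s e = 1 ∨ s e = 2 := by omega
    rcases h2 with h2 | h2 | h2 <;> simp [h, h2]

/-- two on `A`, and zero or two elsewhere -/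
lemma blkC (G : MGraph V E) (A : Finset E)
    (hA : ∀ B : Finset V, B.Nonempty → B ≠ univ → 2 ≤ (bdry G A B).card) (s : E → ℕ)
    (hs : ∀ e, s e ≤ 1) :
    InIntCone G (fun e => if e ∈ A then 2 else 2 * s e) := by
  classical
  obtain ⟨v, hv⟩ := G.exists_halves
  obtain ⟨S, hS1, hS2⟩ := cover_minus G v hv (univ.filter (fun e => e ∉ A ∧ s e = 0))
    (hdel G v hv A hA _ (fun e he => (Finset.mem_filter.1 he).2.1))
  refine ⟨S, hS1, fun e => ?_⟩
  rw [hS2 e]
  simp only [Finset.mem_filter, Finset.mem_univ, true_and]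
  have h1 := hs e
  by_cases h : e ∈ A
  · simp [h]
  · have h2 : s e = 0 ∨ s e = 1 := by omega
    rcases h2 with h2 | h2 <;> simp [h, h2]

lemma tab8' : ∀ x y z : F2, (x ≠ 0 ∨ y ≠ 0 ∨ z ≠ 0) → ∀ w : F2,
    ((univ : Finset (F2 × F2 × F2)).filter
      (fun t => w + t.1 * x + t.2.1 * y + t.2.2 * z = 0)).card = 4 := by
  decide +kernel

lemma pair_count (y z : F2) : (∑ b : Bool, if y + (if b then z else 0) = 1 then 1 else 0) =
    if z = 1 then 1 else 2 * (if y = 1 then 1 else 0) := by
  revert y z
  decide +kernel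

/-- eight on `T`, and four, six, eight, ten or twelve on `A`, and `0, 2, …, 16` elsewhere -/
lemma blkT (G : MGraph V E) (A T : Finset E)
    (hA : ∀ B : Finset V, B.Nonempty → B ≠ univ → 2 ≤ (bdry G A B).card)
    (hT : ∀ B : Finset V, B.Nonempty → B ≠ univ → ∃ e ∈ T, Leaves G e B)
    (hd : Disjoint A T) (s : E → ℕ)
    (hs : ∀ e, s e ≤ if e ∈ T then 0 else if e ∈ A then 4 else 8) :
    InIntCone G (fun e => (if e ∈ T then 8 else if e ∈ A then 4 else 0) + 2 * s e) := by
  classical
  obtain ⟨v, hv⟩ := G.exists_halves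
  have hne : ∀ B, B.Nonempty → B ≠ univ → ∃ e ∈ A, Leaves G e B := by
    intro B h1 h2
    have h3 := hA B h1 h2
    obtain ⟨e, he⟩ := Finset.card_pos.1 (show 0 < (bdry G A B).card by omega)
    unfold bdry at he
    rw [Finset.mem_filter] at he
    exact ⟨e, he.1, he.2⟩
  obtain ⟨Z, hZ1, hZ2⟩ := flow_off G v hv A hne T
  obtain ⟨x, hx1, hx2, hx3⟩ := exists_flow8_minus (fun e => v (e, false)) (fun e => v (e, true))
    (univ \ A) (hdel G v hv A hA _ (fun e he => (Finset.mem_sdiff.1 he).2))
  let z : (F2 × F2 × F2) → E → F2 := fun u e =>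
    Z e + u.1 * x 0 e + u.2.1 * x 1 e + u.2.2 * x 2 e
  have hzf : ∀ u, IsFlow (fun e => v (e, false)) (fun e => v (e, true)) (z u) := fun u =>
    isFlow_add (isFlow_add (isFlow_add hZ1 (isFlow_smul _ (hx1 0)))
      (isFlow_smul _ (hx1 1))) (isFlow_smul _ (hx1 2))
  have hz1 : ∀ u e, e ∉ A → z u e = if e ∈ T then 1 else 0 := by
    intro u e he
    show Z e + u.1 * x 0 e + u.2.1 * x 1 e + u.2.2 * x 2 e = _
    rw [hx2 0 e (by simp [he]), hx2 1 e (by simp [he]), hx2 2 e (by simp [he]), hZ2 e he]
    ring
  have hz0 : ∀ e ∈ A, (univ.filter (fun u => z u e = 0)).card = 4 := fun e he =>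
    tab8' _ _ _ (hx3 e (by simp [he])) _
  have hz4 : ∀ e ∈ A, (univ.filter (fun u => z u e = 1)).card = 4 := fun e he =>
    tab8 _ _ _ (hx3 e (by simp [he])) _
  have hdT : ∀ e ∈ T, e ∉ A := fun e he h => (Finset.disjoint_left.1 hd h) he
  have hS : ∀ e, ∃ S : Finset (F2 × F2 × F2), S ⊆ univ.filter (fun u => z u e = 0) ∧
      S.card = s e := by
    intro e
    apply Finset.exists_subset_card_eq
    refine le_trans (hs e) ?_
    by_cases heT : e ∈ T
    · simp [heT]
    · by_cases he : e ∈ A
      · simp only [heT, he, if_true, if_false]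
        exact (hz0 e he).ge
      · simp only [heT, he, if_false]
        have h1 : univ.filter (fun u => z u e = 0) = univ := by
          rw [Finset.filter_eq_self]
          intro u _
          rw [hz1 u e he]; simp [heT]
        rw [h1]
        decide +kernel
  choose S hS1 hS2 using hS
  choose y hy1 hy2 using fun u => flow_off G v hv T hT (univ.filter (fun e => u ∈ S e))
  have hfin := intCone_of_flows G v hv (ι := (F2 × F2 × F2) × Bool)
    (fun q e => y q.1 e + (if q.2 then z q.1 e else 0)) (by
      rintro ⟨u, b⟩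
      cases b
      · have h1 : (fun e => y u e + (if (false : Bool) = true then z u e else 0)) = y u := by
          ext e; simp
        show IsFlow _ _ (fun e => y u e + (if (false : Bool) = true then z u e else 0))
        rw [h1]
        exact hy1 u
      · have h1 : (fun e => y u e + (if (true : Bool) = true then z u e else 0)) =
            (fun e => y u e + z u e) := by
          ext e; simp
        show IsFlow _ _ (fun e => y u e + (if (true : Bool) = true then z u e else 0))
        rw [h1]
        exact isFlow_add (hy1 u) (hzf u))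
  have h10 : (fun e => (univ.filter (fun q : (F2 × F2 × F2) × Bool =>
      y q.1 e + (if q.2 then z q.1 e else 0) = 1)).card) =
      (fun e => (if e ∈ T then 8 else if e ∈ A then 4 else 0) + 2 * s e) := by
    ext e
    rw [Finset.card_filter, Fintype.sum_prod_type]
    have h11 : ∀ u ∈ (univ : Finset (F2 × F2 × F2)),
        (∑ b : Bool, if y u e + (if b then z u e else 0) = 1 then 1 else 0) =
        if z u e = 1 then 1 else 2 * (if y u e = 1 then 1 else 0) :=
      fun u _ => pair_count (y u e) (z u e)
    rw [Finset.sum_congr rfl h11]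
    by_cases heT : e ∈ T
    · have he := hdT e heT
      have h0 : s e = 0 := by
        have := hs e
        simpa [heT] using this
      have h12 : ∀ u ∈ (univ : Finset (F2 × F2 × F2)),
          (if z u e = 1 then 1 else 2 * (if y u e = 1 then 1 else 0)) = 1 := by
        intro u _
        rw [hz1 u e he]; simp [heT]
      rw [Finset.sum_congr rfl h12, h0]
      simp only [heT, if_true]
      decide +kernel
    · have h12 : ∀ u ∈ (univ : Finset (F2 × F2 × F2)),
          (if z u e = 1 then 1 else 2 * (if y u e = 1 then 1 else 0)) =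
          (if z u e = 1 then 1 else 0) + 2 * (if u ∈ S e then 1 else 0) := by
        intro u _
        have h13 : y u e = if u ∈ S e then 1 else 0 := by
          rw [hy2 u e heT]
          simp
        rw [h13]
        by_cases h14 : u ∈ S e
        · have h15 : z u e = 0 := (Finset.mem_filter.1 (hS1 e h14)).2
          simp [h14, h15]
        · rcases f2_cases (z u e) with h15 | h15 <;> simp [h14, h15]
      rw [Finset.sum_congr rfl h12, Finset.sum_add_distrib, ← Finset.mul_sum,
        ← Finset.card_filter]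
      have h16 : ∑ u : F2 × F2 × F2, (if u ∈ S e then 1 else 0) = s e := by
        rw [Finset.sum_ite_mem, Finset.univ_inter, Finset.sum_const, smul_eq_mul, mul_one, hS2]
      rw [h16]
      congr 1
      by_cases he : e ∈ A
      · rw [hz4 e he]; simp [heT, he]
      · have h17 : univ.filter (fun u => z u e = 1) = ∅ := by
          rw [Finset.filter_eq_empty_iff]
          intro u _
          rw [hz1 u e he]; simp [heT]
        rw [h17]; simp [heT, he]
  rw [h10] at hfin
  exact hfin

/-- splitting a number into bounded parts -/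
lemma exists_split {ι : Type} [DecidableEq ι] (s : Finset ι) (cap : ι → ℕ) (d : ℕ)
    (h : d ≤ ∑ i ∈ s, cap i) : ∃ f : ι → ℕ, (∀ i, f i ≤ cap i) ∧ ∑ i ∈ s, f i = d := by
  induction s using Finset.induction_on generalizing d with
  | empty =>
    refine ⟨fun _ => 0, fun i => Nat.zero_le _, ?_⟩
    simp at h ⊢
    exact h.symm
  | insert i s hi ih =>
    rw [Finset.sum_insert hi] at h
    obtain ⟨f, h1, h2⟩ := ih (d - min d (cap i)) (by omega)
    refine ⟨Function.update f i (min d (cap i)), ?_, ?_⟩
    · intro j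
      by_cases hj : j = i
      · subst hj
        rw [Function.update_self]
        exact min_le_right _ _
      · rw [Function.update_of_ne hj]
        exact h1 j
    · rw [Finset.sum_insert hi, Function.update_self]
      have h3 : ∑ j ∈ s, Function.update f i (min d (cap i)) j = ∑ j ∈ s, f j := by
        apply Finset.sum_congr rfl
        intro j hj
        rw [Function.update_of_ne]
        rintro rfl
        exact hi hj
      rw [h3, h2]
      omega

/-- splitting a number: parts of size one and two -/
lemma split2 {ι κ : Type} [DecidableEq ι] [DecidableEq κ] (s : Finset ι) (t : Finset κ)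
    (cap : ι → ℕ) (cap' : κ → ℕ) (d : ℕ)
    (h : d ≤ 2 * ∑ i ∈ s, cap i + ∑ i ∈ t, cap' i)
    (h' : 1 ≤ ∑ i ∈ t, cap' i ∨ d = 0) :
    ∃ (f : ι → ℕ) (g : κ → ℕ), (∀ i, f i ≤ cap i) ∧ (∀ i, g i ≤ cap' i) ∧
      2 * ∑ i ∈ s, f i + ∑ i ∈ t, g i = d := by
  obtain ⟨f, hf1, hf2⟩ := exists_split s cap (min (∑ i ∈ s, cap i) (d / 2)) (min_le_left _ _)
  obtain ⟨g, hg1, hg2⟩ := exists_split t cap' (d - 2 * min (∑ i ∈ s, cap i) (d / 2)) (by
    rcases h' with h' | h' <;> omega)
  exact ⟨f, g, hf1, hg1, by rw [hf2, hg2]; omega⟩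

end Pool.Agent.H44.RT
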