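import Pool.Agent.H44.RT.Packed

set_option autoImplicit false
set_option linter.unusedSectionVars false

/-!
Spanning closed trails with bounded multiplicity.
-/

namespace Pool.Agent.H44.RT

open Finset
open Pool.Agent.Helper879.ECD (F2 IsFlow inc cn f2_add_self f2_cases)
open Pool.Agent.H126R2.CDC (MGraph isFl_iff)
open Pool.Agent.H126R2.NC (InCone InLat InIntCone cone_lat_of_intCone)
open Pool.Agent.TH399.CC (intCone_add intCone_sum isEven_of_isFlow exists_flow_on
  exists_flow8_minus isFlow_add isFlow_smul odd_part)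

variable {V E : Type} [Fintype V] [DecidableEq V] [Fintype E] [DecidableEq E]

lemma isFlow_sum {W : Type} {ι : Type} [Fintype ι] (a b : E → W) (x : ι → E → F2)
    (hx : ∀ i, IsFlow a b (x i)) : IsFlow a b (fun e => ∑ i, x i e) := by
  intro c
  simp only [Finset.sum_mul]
  rw [Finset.sum_comm]
  exact Finset.sum_eq_zero fun i _ => hx i c

lemma pair_count' (y z : F2) : (∑ b : Bool, if y + (if b then z else 0) = 1 then 1 else 0) =
    if z = 1 then 1 else 2 * (if y = 1 then 1 else 0) := by
  revert y z
  decide +kernel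

lemma natCast_f2 (n : ℕ) : (if ((n : ℕ) : F2) = 1 then 1 else 0) = n % 2 := by
  rcases Nat.even_or_odd n with h | h
  · have h1 : ((n : ℕ) : F2) = 0 := (ZMod.natCast_eq_zero_iff_even).2 h
    rw [h1, if_neg zero_ne_one]
    rw [Nat.even_iff] at h
    exact h.symm
  · have h1 : ((n : ℕ) : F2) = 1 := (ZMod.natCast_eq_one_iff_odd).2 h
    rw [h1, if_pos rfl]
    rw [Nat.odd_iff] at h
    exact h.symm

/-- spanning closed trails `D i` with every edge in at most `2 a` of them; the even weighting `2 t`
with `a ≤ t ≤ N - a` has a circuit cover, where `N` is the number of the trails -/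
theorem trails_cover (G : MGraph V E) {ι : Type} [Fintype ι] [DecidableEq ι] (a : ℕ)
    (D : ι → Finset E) (hD : ∀ i, G.IsEven (D i))
    (hin : ∀ i, ∀ B : Finset V, B.Nonempty → B ≠ univ → ∃ e ∈ D i, Leaves G e B)
    (hcap : ∀ e, (univ.filter (fun i => e ∈ D i)).card ≤ 2 * a)
    (t : E → ℕ) (h1 : ∀ e, a ≤ t e) (h2 : ∀ e, t e + a ≤ Fintype.card ι) :
    InIntCone G (fun e => 2 * t e) := by
  classical
  obtain ⟨v, hv⟩ := G.exists_halves
  set x : ι → E → F2 := fun i e => if e ∈ D i then 1 else 0 with hx
  have hxf : ∀ i, IsFlow (fun e => v (e, false)) (fun e => v (e, true)) (x i) := fun i =>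
    (isFl_iff v _).1 ((G.isEven_iff v hv (D i)).1 (hD i))
  set d : E → ℕ := fun e => (univ.filter (fun i => e ∈ D i)).card with hd
  have hcomp : ∀ e, (univ.filter (fun i => ¬ e ∈ D i)).card = Fintype.card ι - d e := by
    intro e
    have := Finset.card_filter_add_card_filter_not (s := (univ : Finset ι)) (fun i => e ∈ D i)
    rw [Finset.card_univ] at this
    simp only [hd]
    omega
  have hS : ∀ e, ∃ S : Finset ι, S ⊆ univ.filter (fun i => ¬ e ∈ D i) ∧
      S.card = (2 * t e - d e - d e % 2) / 2 := by
    intro e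
    apply Finset.exists_subset_card_eq
    rw [hcomp]
    have := hcap e
    have := h1 e
    have := h2 e
    have : d e ≤ 2 * a := hcap e
    omega
  choose S hS1 hS2 using hS
  choose Z hZ1 hZ2 using fun i => flow_off G v hv (D i) (hin i) (univ.filter (fun e => i ∈ S e))
  have hw : IsFlow (fun e => v (e, false)) (fun e => v (e, true)) (fun e => ∑ i, x i e) :=
    isFlow_sum _ _ x hxf
  have hwd : ∀ e, ∑ i, x i e = ((d e : ℕ) : F2) := by
    intro e
    simp only [hx, hd]
    rw [Finset.sum_boole]
  have hA := intCone_of_flows G v hv (ι := ι × Bool)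
    (fun q e => Z q.1 e + (if q.2 then x q.1 e else 0)) (by
      rintro ⟨i, b⟩
      cases b
      · have h3 : (fun e => Z i e + (if (false : Bool) = true then x i e else 0)) = Z i := by
          ext e; simp
        show IsFlow _ _ (fun e => Z i e + (if (false : Bool) = true then x i e else 0))
        rw [h3]
        exact hZ1 i
      · have h3 : (fun e => Z i e + (if (true : Bool) = true then x i e else 0)) =
            (fun e => Z i e + x i e) := by
          ext e; simp
        show IsFlow _ _ (fun e => Z i e + (if (true : Bool) = true then x i e else 0))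
        rw [h3]
        exact isFlow_add (hZ1 i) (hxf i))
  have hB := intCone_of_flows G v hv (ι := Unit) (fun _ e => ∑ i, x i e) (fun _ => hw)
  refine intCone_add G hA hB ?_
  intro e
  have h3 : (univ.filter (fun _ : Unit => ∑ i, x i e = 1)).card = d e % 2 := by
    rw [hwd e, Finset.card_filter]
    simp only [Finset.univ_unique, Finset.sum_singleton]
    exact natCast_f2 (d e)
  rw [h3, Finset.card_filter, Fintype.sum_prod_type]
  have h4 : ∀ i ∈ (univ : Finset ι),
      (∑ b : Bool, if Z i e + (if b then x i e else 0) = 1 then 1 else 0) =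
      (if e ∈ D i then 1 else 0) + 2 * (if i ∈ S e then 1 else 0) := by
    intro i _
    rw [pair_count']
    by_cases h5 : e ∈ D i
    · have h6 : i ∉ S e := fun h => (Finset.mem_filter.1 (hS1 e h)).2 h5
      simp [hx, h5, h6]
    · have h7 : Z i e = if i ∈ S e then 1 else 0 := by
        rw [hZ2 i e h5]
        simp
      rw [h7]
      by_cases h6 : i ∈ S e <;> simp [hx, h5, h6]
  rw [Finset.sum_congr rfl h4, Finset.sum_add_distrib, ← Finset.mul_sum, ← Finset.card_filter]
  have h5 : ∑ i : ι, (if i ∈ S e then 1 else 0) = (S e).card := by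
    rw [Finset.sum_ite_mem, Finset.univ_inter, Finset.sum_const, smul_eq_mul, mul_one]
  rw [h5, hS2 e]
  show 2 * t e = d e + 2 * ((2 * t e - d e - d e % 2) / 2) + d e % 2
  have h6 : d e ≤ 2 * a := hcap e
  have h7 := h1 e
  omega

/-- `m` spanning closed trails with every edge in at most two of them: ratio `m - 1` -/
theorem trails_ratio (G : MGraph V E) (m : ℕ)
    (D : Fin m → Finset E) (hD : ∀ i, G.IsEven (D i))
    (hin : ∀ i, ∀ B : Finset V, B.Nonempty → B ≠ univ → ∃ e ∈ D i, Leaves G e B)
    (hcap : ∀ e, (univ.filter (fun i => e ∈ D i)).card ≤ 2)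
    (t : E → ℕ) (h : ∀ e f, t e ≤ (m - 1) * t f) : InIntCone G (fun e => 2 * t e) := by
  classical
  by_cases hE : Nonempty E
  · obtain ⟨e0, -, hmin⟩ := Finset.exists_min_image (univ : Finset E) t
      ⟨hE.some, Finset.mem_univ _⟩
    rcases Nat.eq_zero_or_pos (t e0) with h0 | h0
    · refine ⟨0, by simp, fun e => ?_⟩
      have := h e e0
      rw [h0] at this
      simp at this ⊢
      exact this
    have hm : 1 ≤ m := by
      rcases Nat.eq_zero_or_pos m with h3 | h3
      · exfalso
        have := h e0 e0
        rw [h3] at this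
        simp at this
        omega
      · exact h3
    refine trails_cover G (ι := Fin (t e0) × Fin m) (t e0) (fun q => D q.2) (fun q => hD q.2)
      (fun q => hin q.2) ?_ t (fun e => hmin e (Finset.mem_univ _)) ?_
    · intro e
      rw [Finset.card_filter, Fintype.sum_prod_type]
      show ∑ _x : Fin (t e0), ∑ i : Fin m, (if e ∈ D i then 1 else 0) ≤ 2 * t e0
      rw [Finset.sum_const, Finset.card_univ, Fintype.card_fin, smul_eq_mul]
      have h3 := hcap e
      rw [Finset.card_filter] at h3
      calc t e0 * ∑ i : Fin m, (if e ∈ D i then 1 else 0) ≤ t e0 * 2 := Nat.mul_le_mul_left _ h3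
        _ = 2 * t e0 := by ring
    · intro e
      rw [Fintype.card_prod, Fintype.card_fin, Fintype.card_fin]
      have h3 := h e e0
      obtain ⟨n, rfl⟩ : ∃ n, m = n + 1 := ⟨m - 1, by omega⟩
      rw [Nat.add_sub_cancel] at h3
      calc t e + t e0 ≤ n * t e0 + t e0 := by omega
        _ = t e0 * (n + 1) := by ring
  · exact ⟨0, by simp, fun e => absurd ⟨e⟩ hE⟩

/-- `2 m`-edge-connected graphs have `m` spanning closed trails with every edge in at most two of
them (for `m ≥ 2`) -/
theorem trails_of_edgeConn (G : MGraph V E) (n : ℕ)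
    (hG : ∀ B : Finset V, B.Nonempty → B ≠ univ → 2 * (n + 2) ≤ (bdry G univ B).card) :
    ∃ D : Fin (n + 2) → Finset E, (∀ i, G.IsEven (D i)) ∧
      (∀ i, ∀ B : Finset V, B.Nonempty → B ≠ univ → ∃ e ∈ D i, Leaves G e B) ∧
      ∀ e, (univ.filter (fun i => e ∈ D i)).card ≤ 2 := by
  classical
  obtain ⟨I, hI1, hI2⟩ := trees G (n + 2) hG
  have hne : ∀ i : Fin (n + 2), i ≠ i + 1 := by
    intro i h
    have h1 : (1 : Fin (n + 2)) = 0 := by
      have h2 : i + 0 = i + 1 := by rw [add_zero]; exact h
      exact (add_left_cancel h2).symm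
    exact absurd h1 (by simp)
  have hX : ∀ i : Fin (n + 2), ∃ X : Finset E, G.IsEven X ∧ X ⊆ I i ∪ I (i + 1) ∧
      Disjoint X (∅ : Finset E) ∧
      ∀ B : Finset V, B.Nonempty → B ≠ univ → ∃ e ∈ X, Leaves G e B := fun i =>
    trail_of_three G (I i) (I (i + 1)) ∅ (hI2 _) (hI2 _) (hI1 _ _ (hne i))
      (Finset.disjoint_empty_right _) (Finset.disjoint_empty_right _)
  choose X hX1 hX2 hX3 hX4 using hX
  refine ⟨X, hX1, hX4, fun e => ?_⟩
  by_cases hj : ∃ j, e ∈ I j
  · obtain ⟨j, hj⟩ := hj
    have huniq : ∀ i, e ∈ I i → i = j := by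
      intro i hi
      by_contra hij
      exact Finset.disjoint_left.1 (hI1 i j hij) hi hj
    have hsub : univ.filter (fun i => e ∈ X i) ⊆ {j, j - 1} := by
      intro i hi
      rw [Finset.mem_filter] at hi
      rw [Finset.mem_insert, Finset.mem_singleton]
      rcases Finset.mem_union.1 (hX2 i hi.2) with h | h
      · exact Or.inl (huniq i h)
      · right
        rw [← huniq (i + 1) h, add_sub_cancel_right]
    exact le_trans (Finset.card_le_card hsub) Finset.card_le_two
  · push Not at hj
    have hsub : univ.filter (fun i => e ∈ X i) = ∅ := by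
      rw [Finset.filter_eq_empty_iff]
      intro i _ hi
      rcases Finset.mem_union.1 (hX2 i hi) with h | h
      · exact hj _ h
      · exact hj _ h
    rw [hsub]
    simp

end Pool.Agent.H44.RT
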